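import Pool.Agent.H58.OVAC.Blocks

/-! Embedding block strings into bit vectors (from helper90, `IndependentBuckets`). -/

set_option autoImplicit false
set_option maxHeartbeats 4000000

namespace Pool.Agent.H58.OVAC

/-- Positions of the `2n` input vectors: `(false, i)` is the `i`-th vector of `A`, and
`(true, j)` is the `j`-th vector of `B`. -/
abbrev Pos (n : ℕ) : Type := Bool × Fin n

/-- Vectors in `{0,1}^d`. -/
abbrev Vec (d : ℕ) : Type := Fin d → Bool

/-- An input: `n` vectors of `A` and `n` vectors of `B`, all in `{0,1}^d`. -/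
abbrev Input (n d : ℕ) : Type := Pos n → Vec d

/-- Valid inputs: each of the two sets is listed in strictly increasing lexicographic order (so
each consists of exactly `n` distinct vectors, written in the canonical order). -/
def IsValid {n d : ℕ} (x : Input n d) : Prop :=
  StrictMono (fun i : Fin n => toLex (x (false, i))) ∧
  StrictMono (fun j : Fin n => toLex (x (true, j)))

/-- The `i`-th vector of `A` and the `j`-th vector of `B` have inner product `0` over the
integers. -/
def Orthogonal {n d : ℕ} (x : Input n d) (i j : Fin n) : Prop :=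
  ∑ k : Fin d, (x (false, i) k).toNat * (x (true, j) k).toNat = 0

variable {n d D k : ℕ}

/-- The test input with the given strings. -/
def tst (E : Pos n → Str k D → Vec d) (z w : Fin n → Str k D) : Input n d := fun p =>
  E p (if p.1 = false then z p.2 else w p.2)

theorem exists_code {n m : ℕ} (h : n ≤ 2 ^ m) :
    ∃ code : Fin n → Fin m → Bool, ∀ i j, i < j →
      ∃ k : Fin m, (∀ l < k, code i l = code j l) ∧ code i k = false ∧ code j k = true := by
  classical
  have hcard : Fintype.card (Lex (Fin m → Bool)) = 2 ^ m := by
    rw [Fintype.card_lex, Fintype.card_fun, Fintype.card_bool, Fintype.card_fin]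
  let e : Fin (2 ^ m) ≃o Lex (Fin m → Bool) := Fintype.orderIsoFinOfCardEq _ hcard
  refine ⟨fun i => ofLex (e (Fin.castLE h i)), fun i j hij => ?_⟩
  have h1 := e.strictMono (show Fin.castLE h i < Fin.castLE h j from hij)
  obtain ⟨k, hk1, hk2⟩ := h1
  refine ⟨k, hk1, ?_⟩
  have hk3 : (ofLex (e (Fin.castLE h i)) k : Bool) < ofLex (e (Fin.castLE h j)) k := hk2
  rw [Bool.lt_iff] at hk3
  exact hk3

/-- The vector of a string: first two blocks of length `l` with the name of the position, then
one block of length `k` for every letter, with a single one. -/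
def emb {l : ℕ} (d : ℕ) (code : Fin n → Fin l → Bool) (p : Pos n) (s : Str k D) :
    Vec d := fun x =>
  if h : x.1 < l then (if p.1 = false then code p.2 ⟨x.1, h⟩ else false)
  else if h : x.1 < 2 * l then (if p.1 = false then false else code p.2 ⟨x.1 - l, by omega⟩)
  else if h : x.1 < 2 * l + D * k then
    decide (s (finProdFinEquiv.symm (⟨x.1 - 2 * l, by omega⟩ : Fin (D * k))).1 =
      (finProdFinEquiv.symm (⟨x.1 - 2 * l, by omega⟩ : Fin (D * k))).2)
  else false

theorem emb_valid {l : ℕ} (hd : 2 * l + D * k ≤ d) (code : Fin n → Fin l → Bool)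
    (hcode : ∀ i j, i < j →
      ∃ k : Fin l, (∀ q < k, code i q = code j q) ∧ code i k = false ∧ code j k = true)
    (z w : Fin n → Str k D) : IsValid (tst (emb d code) z w) := by
  constructor
  · intro p q hpq
    obtain ⟨k', hk1, hk2, hk3⟩ := hcode p q hpq
    refine ⟨⟨k'.1, by omega⟩, ?_, ?_⟩
    · intro s hs
      have hs' : s.1 < k'.1 := hs
      have h1 : s.1 < l := by omega
      show emb d code (false, p) (z p) s = emb d code (false, q) (z q) s
      unfold emb
      rw [dif_pos h1, dif_pos h1]
      simp only [if_true]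
      exact hk1 ⟨s.1, h1⟩ hs'
    · show emb d code (false, p) (z p) _ < emb d code (false, q) (z q) _
      unfold emb
      rw [dif_pos (show (⟨k'.1, by omega⟩ : Fin d).1 < l from k'.2),
        dif_pos (show (⟨k'.1, by omega⟩ : Fin d).1 < l from k'.2)]
      simp only [if_true]
      rw [hk2, hk3]
      decide
  · intro p q hpq
    obtain ⟨k', hk1, hk2, hk3⟩ := hcode p q hpq
    refine ⟨⟨l + k'.1, by omega⟩, ?_, ?_⟩
    · intro s hs
      have hs' : s.1 < l + k'.1 := hs
      show emb d code (true, p) (w p) s = emb d code (true, q) (w q) s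
      unfold emb
      by_cases h1 : s.1 < l
      · rw [dif_pos h1, dif_pos h1]
        simp
      · have h2 : s.1 < 2 * l := by omega
        rw [dif_neg h1, dif_neg h1, dif_pos h2, dif_pos h2]
        simp only [Bool.true_eq_false, if_false]
        exact hk1 ⟨s.1 - l, by omega⟩ (by rw [Fin.lt_def]; simp only; omega)
    · show emb d code (true, p) (w p) _ < emb d code (true, q) (w q) _
      unfold emb
      have h1 : ¬ (l + k'.1 < l) := by omega
      have h2 : l + k'.1 < 2 * l := by omega
      have h3 : (⟨l + k'.1 - l, by omega⟩ : Fin l) = k' := by ext; simp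
      simp only [h1, h2, dif_pos, dif_neg, not_false_iff, Bool.true_eq_false, if_false]
      rw [h3, hk2, hk3]
      decide

theorem sum_toNat_eq_zero_iff {d : ℕ} (u v : Vec d) :
    ∑ k : Fin d, (u k).toNat * (v k).toNat = 0 ↔ ∀ k, ¬ (u k = true ∧ v k = true) := by
  rw [Finset.sum_eq_zero_iff]
  constructor
  · intro h k ⟨h1, h2⟩
    have := h k (Finset.mem_univ k)
    simp [h1, h2] at this
  · intro h k _
    have := h k
    cases hu : u k <;> cases hv : v k <;> simp_all

theorem emb_orthogonal {l : ℕ} (hd : 2 * l + D * k ≤ d) (code : Fin n → Fin l → Bool)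
    (z w : Fin n → Str k D) (i j : Fin n) :
    Orthogonal (tst (emb d code) z w) i j ↔ Off (z i) (w j) := by
  unfold Orthogonal
  rw [sum_toNat_eq_zero_iff]
  have hA : ∀ x, tst (emb d code) z w (false, i) x = emb d code (false, i) (z i) x :=
    fun x => by simp [tst]
  have hB : ∀ x, tst (emb d code) z w (true, j) x = emb d code (true, j) (w j) x :=
    fun x => by simp [tst]
  simp only [hA, hB]
  constructor
  · intro h c hc
    have hy := (finProdFinEquiv (c, z i c)).2
    apply h ⟨2 * l + (finProdFinEquiv (c, z i c)).1, by omega⟩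
    have h1 : ¬ (2 * l + (finProdFinEquiv (c, z i c)).1 < l) := by omega
    have h2 : ¬ (2 * l + (finProdFinEquiv (c, z i c)).1 < 2 * l) := by omega
    have h3 : 2 * l + (finProdFinEquiv (c, z i c)).1 < 2 * l + D * k := by omega
    have h4 : (⟨2 * l + (finProdFinEquiv (c, z i c)).1 - 2 * l, by omega⟩ : Fin (D * k)) =
        finProdFinEquiv (c, z i c) := by
      apply Fin.ext
      show 2 * l + (finProdFinEquiv (c, z i c)).1 - 2 * l = _
      omega
    unfold emb
    constructor
    · rw [dif_neg h1, dif_neg h2, dif_pos h3, h4, Equiv.symm_apply_apply]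
      simp
    · rw [dif_neg h1, dif_neg h2, dif_pos h3, h4, Equiv.symm_apply_apply]
      simpa using hc.symm
  · rintro h x ⟨h1, h2⟩
    unfold emb at h1 h2
    by_cases c1 : x.1 < l
    · rw [dif_pos c1] at h2
      simp at h2
    · rw [dif_neg c1] at h1 h2
      by_cases c2 : x.1 < 2 * l
      · rw [dif_pos c2] at h1
        simp at h1
      · rw [dif_neg c2] at h1 h2
        by_cases c3 : x.1 < 2 * l + D * k
        · rw [dif_pos c3] at h1 h2
          simp only [decide_eq_true_eq] at h1 h2
          exact h _ (h1.trans h2.symm)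
        · rw [dif_neg c3] at h1
          simp at h1

end Pool.Agent.H58.OVAC
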