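import Mathlib

/-! Averages over finite sets, probabilities, and the resampling (mix) lemma. -/

set_option autoImplicit false
set_option maxHeartbeats 4000000

namespace Pool.Agent.H58.OVAC

/-- The average of `f`. -/
noncomputable def av {Ω : Type} [Fintype Ω] (f : Ω → ℝ) : ℝ := (∑ ω, f ω) / Fintype.card Ω

open Classical in
/-- The probability of `s` under the uniform distribution. -/
noncomputable def pr {Ω : Type} [Fintype Ω] (s : Ω → Prop) : ℝ :=
  av fun ω => if s ω then 1 else 0

section av

variable {Ω Ω' : Type} [Fintype Ω] [Fintype Ω']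

theorem av_mono {f g : Ω → ℝ} (h : ∀ ω, f ω ≤ g ω) : av f ≤ av g :=
  div_le_div_of_nonneg_right (Finset.sum_le_sum fun ω _ => h ω) (Nat.cast_nonneg _)

theorem av_nonneg {f : Ω → ℝ} (h : ∀ ω, 0 ≤ f ω) : 0 ≤ av f :=
  div_nonneg (Finset.sum_nonneg fun ω _ => h ω) (Nat.cast_nonneg _)

theorem av_congr {f g : Ω → ℝ} (h : ∀ ω, f ω = g ω) : av f = av g := by
  unfold av
  rw [Finset.sum_congr rfl fun ω _ => h ω]

theorem av_add (f g : Ω → ℝ) : av (fun ω => f ω + g ω) = av f + av g := by
  unfold av
  rw [Finset.sum_add_distrib, add_div]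

theorem av_sub (f g : Ω → ℝ) : av (fun ω => f ω - g ω) = av f - av g := by
  unfold av
  rw [Finset.sum_sub_distrib, sub_div]

theorem av_mul_left (c : ℝ) (f : Ω → ℝ) : av (fun ω => c * f ω) = c * av f := by
  unfold av
  rw [← Finset.mul_sum, mul_div_assoc]

theorem av_mul_right (c : ℝ) (f : Ω → ℝ) : av (fun ω => f ω * c) = av f * c := by
  unfold av
  rw [← Finset.sum_mul]
  ring

theorem av_sum {ι : Type} (s : Finset ι) (f : ι → Ω → ℝ) :
    av (fun ω => ∑ i ∈ s, f i ω) = ∑ i ∈ s, av (f i) := by
  unfold av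
  rw [Finset.sum_comm, Finset.sum_div]

theorem av_const [Nonempty Ω] (c : ℝ) : av (fun _ : Ω => c) = c := by
  unfold av
  rw [Finset.sum_const, Finset.card_univ, nsmul_eq_mul]
  field_simp

theorem av_le [Nonempty Ω] {f : Ω → ℝ} {c : ℝ} (h : ∀ ω, f ω ≤ c) : av f ≤ c :=
  (av_mono h).trans (av_const c).le

theorem le_av [Nonempty Ω] {f : Ω → ℝ} {c : ℝ} (h : ∀ ω, c ≤ f ω) : c ≤ av f :=
  (av_const c).ge.trans (av_mono h)

theorem av_equiv (e : Ω ≃ Ω') (f : Ω' → ℝ) : av (fun ω => f (e ω)) = av f := by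
  unfold av
  rw [Equiv.sum_comp e f, Fintype.card_congr e]

theorem av_prod (f : Ω → Ω' → ℝ) :
    av (fun z : Ω × Ω' => f z.1 z.2) = av fun a => av fun b => f a b := by
  unfold av
  rw [Fintype.sum_prod_type, Fintype.card_prod, ← Finset.sum_div, div_div]
  push_cast
  rw [mul_comm]

theorem av_comm (f : Ω → Ω' → ℝ) :
    (av fun a => av fun b => f a b) = av fun b => av fun a => f a b := by
  unfold av
  simp only [← Finset.sum_div]
  rw [Finset.sum_comm, div_div, div_div, mul_comm]

theorem pr_nonneg (s : Ω → Prop) : 0 ≤ pr s := av_nonneg fun ω => by split_ifs <;> norm_num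

theorem pr_le_one (s : Ω → Prop) : pr s ≤ 1 := by
  rcases isEmpty_or_nonempty Ω with h | h
  · unfold pr av
    simp
  · exact av_le fun ω => by split_ifs <;> norm_num

theorem pr_mono {s t : Ω → Prop} (h : ∀ ω, s ω → t ω) : pr s ≤ pr t := by
  refine av_mono fun ω => ?_
  by_cases h1 : s ω
  · simp [h1, h ω h1]
  · simp only [h1, if_false]
    split_ifs <;> norm_num

theorem pr_congr {s t : Ω → Prop} (h : ∀ ω, s ω ↔ t ω) : pr s = pr t :=
  le_antisymm (pr_mono fun ω => (h ω).1) (pr_mono fun ω => (h ω).2)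

theorem pr_eq_zero {s : Ω → Prop} (h : ∀ ω, ¬ s ω) : pr s = 0 := by
  unfold pr av
  simp [h]

theorem pr_or_le (s t : Ω → Prop) : pr (fun ω => s ω ∨ t ω) ≤ pr s + pr t := by
  unfold pr
  rw [← av_add]
  refine av_mono fun ω => ?_
  by_cases h1 : s ω <;> by_cases h2 : t ω <;> simp [h1, h2]

theorem pr_exists_le {ι : Type} (s : Finset ι) (p : ι → Ω → Prop) :
    pr (fun ω => ∃ i ∈ s, p i ω) ≤ ∑ i ∈ s, pr (p i) := by
  classical
  unfold pr
  rw [← av_sum]
  refine av_mono fun ω => ?_
  by_cases h : ∃ i ∈ s, p i ω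
  · obtain ⟨i, hi, hp⟩ := h
    have h1 : (if p i ω then (1 : ℝ) else 0) ≤ ∑ i ∈ s, if p i ω then (1 : ℝ) else 0 :=
      Finset.single_le_sum (f := fun i => if p i ω then (1 : ℝ) else 0)
        (fun i _ => by split_ifs <;> norm_num) hi
    rw [if_pos hp] at h1
    rw [if_pos ⟨i, hi, hp⟩]
    exact h1
  · rw [if_neg h]
    exact Finset.sum_nonneg fun i _ => by split_ifs <;> norm_num

theorem pr_not (s : Ω → Prop) [Nonempty Ω] : pr (fun ω => ¬ s ω) = 1 - pr s := by
  have h1 : pr (fun ω => ¬ s ω) + pr s = 1 := by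
    unfold pr
    rw [← av_add]
    calc _ = av fun _ : Ω => (1 : ℝ) := av_congr fun ω => by by_cases h : s ω <;> simp [h]
      _ = 1 := av_const 1
  linarith

theorem pr_equiv (e : Ω ≃ Ω') (s : Ω' → Prop) : pr (fun ω => s (e ω)) = pr s := by
  classical
  unfold pr
  exact av_equiv e fun ω => if s ω then (1 : ℝ) else 0

theorem pr_prod (s : Ω → Ω' → Prop) :
    pr (fun z : Ω × Ω' => s z.1 z.2) = av fun a => pr fun b => s a b := by
  classical
  unfold pr
  exact av_prod fun a b => if s a b then (1 : ℝ) else 0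

end av

/-! ### Mixing -/

section mix

variable {V X : Type} [DecidableEq V]

/-- `a` on `J` and `b` off `J`. -/
def mix (J : Finset V) (a b : V → X) : V → X := fun i => if i ∈ J then a i else b i

theorem mix_mix (J : Finset V) (a b : V → X) : mix J (mix J a b) (mix J b a) = a := by
  funext i
  unfold mix
  by_cases h : i ∈ J <;> simp [h]

/-- The exchange of the values on `J`. -/
def mixEquiv (J : Finset V) : ((V → X) × (V → X)) ≃ ((V → X) × (V → X)) where
  toFun z := (mix J z.1 z.2, mix J z.2 z.1)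
  invFun z := (mix J z.1 z.2, mix J z.2 z.1)
  left_inv z := by simp [mix_mix]
  right_inv z := by simp [mix_mix]

variable [Fintype V] [Fintype X]

theorem av_mix₂ (J : Finset V) (f : (V → X) → (V → X) → ℝ) :
    (av fun a => av fun b => f (mix J a b) (mix J b a)) = av fun a => av fun b => f a b := by
  rw [← av_prod fun a b => f (mix J a b) (mix J b a), ← av_prod f]
  exact av_equiv (mixEquiv J) fun z => f z.1 z.2

theorem av_mix [Nonempty X] (J : Finset V) (f : (V → X) → ℝ) :
    (av fun a => av fun b => f (mix J a b)) = av f := by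
  rw [av_mix₂ J fun a _ => f a]
  exact av_congr fun a => av_const _

theorem pr_mix [Nonempty X] (J : Finset V) (s : (V → X) → Prop) :
    (av fun a => pr fun b => s (mix J a b)) = pr s := by
  classical
  unfold pr
  exact av_mix J fun a => if s a then (1 : ℝ) else 0

/-- Independence. -/
theorem pr_and_of_disjoint [Nonempty X] (J : Finset V) {s t : (V → X) → Prop}
    (hs : ∀ a b, (∀ i ∈ J, a i = b i) → (s a ↔ s b))
    (ht : ∀ a b, (∀ i, i ∉ J → a i = b i) → (t a ↔ t b)) :
    pr (fun ω => s ω ∧ t ω) = pr s * pr t := by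
  classical
  have h1 : pr (fun ω => s ω ∧ t ω) =
      av fun a => av fun b => (if s a then (1 : ℝ) else 0) * (if t b then 1 else 0) := by
    rw [← pr_mix J]
    unfold pr
    refine av_congr fun a => av_congr fun b => ?_
    have e1 : s (mix J a b) ↔ s a := hs _ _ fun i hi => by simp [mix, hi]
    have e2 : t (mix J a b) ↔ t b := ht _ _ fun i hi => by simp [mix, hi]
    by_cases h3 : s a <;> by_cases h4 : t b <;> simp [e1, e2, h3, h4]
  rw [h1]
  have h2 : ∀ a : V → X, (av fun b : V → X => (if s a then (1 : ℝ) else 0) *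
      (if t b then 1 else 0)) = (if s a then (1 : ℝ) else 0) * pr t := by
    intro a
    rw [av_mul_left]
    rfl
  rw [av_congr h2, av_mul_right]
  rfl

end mix

/-- The probability of a product event. -/
theorem pr_forall_mem {V X : Type} [DecidableEq V] [Fintype V] [Fintype X] [Nonempty X]
    (J : Finset V) (Q : V → X → Prop) :
    pr (fun ω : V → X => ∀ i ∈ J, Q i (ω i)) = ∏ i ∈ J, pr (Q i) := by
  classical
  induction J using Finset.induction_on with
  | empty =>
    simp only [Finset.notMem_empty, false_imp_iff, implies_true, Finset.prod_empty]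
    unfold pr
    simp only [if_true]
    exact av_const 1
  | insert k J hk ih =>
    rw [Finset.prod_insert hk, ← ih]
    have h1 : pr (fun ω : V → X => ∀ i ∈ insert k J, Q i (ω i)) =
        pr (fun ω : V → X => (Q k (ω k)) ∧ ∀ i ∈ J, Q i (ω i)) :=
      pr_congr fun ω => by simp [Finset.mem_insert]
    rw [h1, pr_and_of_disjoint {k} (s := fun ω : V → X => Q k (ω k))
      (t := fun ω : V → X => ∀ i ∈ J, Q i (ω i))
      (fun a b h => by rw [h k (Finset.mem_singleton_self k)])
      (fun a b h => by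
        refine forall₂_congr fun i hi => ?_
        rw [h i (by rw [Finset.mem_singleton]; rintro rfl; exact hk hi)])]
    congr 1
    -- the marginal distribution at `k`
    have h2 := pr_equiv (Equiv.funSplitAt k X) (fun z : X × ({j // j ≠ k} → X) => Q k z.1)
    have h3 : pr (fun z : X × ({j // j ≠ k} → X) => Q k z.1) = pr (Q k) := by
      rw [pr_prod fun (a : X) (_ : {j // j ≠ k} → X) => Q k a]
      unfold pr
      refine av_congr fun a => av_const _
    rw [← h3, ← h2]
    exact pr_congr fun ω => Iff.rfl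

end Pool.Agent.H58.OVAC
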