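import Mathlib

/-! Block strings and the two-function hypercontractive inequality (from helper90,
`IndependentBuckets`). -/

set_option autoImplicit false
set_option maxHeartbeats 4000000

namespace Pool.Agent.H58.OVAC

/-! ### A hypercontractive inequality -/

theorem pointwise {η : ℝ} (h0 : 0 < η) (h1 : η ≤ 1) {k : ℝ} (hk : 1 < k) (hk1 : 3 ≤ k ^ η)
    (hk2 : 2 / η ≤ k - 1) {w : ℝ} (hw0 : 0 ≤ w) (hwk : w ≤ k) :
    (w - 1) ^ 2 / (k - 1) ≤ w ^ (1 + η) - 1 - (1 + η) * (w - 1) := by
  have hk0 : 0 < k - 1 := by linarith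
  let g : ℝ → ℝ := fun w => w ^ (1 + η) - 1 - (1 + η) * (w - 1) - (w - 1) ^ 2 / (k - 1)
  have hder : ∀ w, HasDerivAt g ((1 + η) * w ^ η - (1 + η) - 2 * (w - 1) / (k - 1)) w := by
    intro w
    have e1 : HasDerivAt (fun w : ℝ => w ^ (1 + η)) ((1 + η) * w ^ η) w := by
      have := Real.hasDerivAt_rpow_const (x := w) (p := 1 + η) (Or.inr (by linarith))
      simpa using this
    have e2 : HasDerivAt (fun w : ℝ => (1 + η) * (w - 1)) (1 + η) w := by
      simpa using ((hasDerivAt_id w).sub_const 1).const_mul (1 + η)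
    have e3 : HasDerivAt (fun w : ℝ => (w - 1) ^ 2 / (k - 1)) (2 * (w - 1) / (k - 1)) w := by
      have := (((hasDerivAt_id w).sub_const 1).pow 2).div_const (k - 1)
      simpa using this
    exact ((e1.sub_const 1).sub e2).sub e3
  have hg1 : g 1 = 0 := by simp [g]
  have hgw : 0 ≤ g w := by
    rcases le_total w 1 with hw | hw
    · have hanti : AntitoneOn g (Set.Icc 0 1) := by
        apply antitoneOn_of_deriv_nonpos (convex_Icc 0 1)
        · exact fun x _ => (hder x).continuousAt.continuousWithinAt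
        · exact fun x _ => (hder x).differentiableAt.differentiableWithinAt
        · intro x hx
          rw [interior_Icc] at hx
          rw [(hder x).deriv]
          have h2 : x ^ η ≤ 1 + η * (x - 1) := by
            have := rpow_one_add_le_one_add_mul_self (s := x - 1) (p := η)
              (by linarith [hx.1]) h0.le h1
            simpa using this
          have h3 : 2 * (1 - x) / (k - 1) ≤ (1 + η) * (η * (1 - x)) := by
            rw [div_le_iff₀ hk0]
            have h4 : 2 ≤ (k - 1) * η := by rwa [div_le_iff₀ h0] at hk2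
            have h5 : 0 ≤ 1 - x := by linarith [hx.2]
            nlinarith [mul_nonneg h5 (show 0 ≤ (k - 1) * η - 2 by linarith),
              mul_nonneg (mul_nonneg h5 h0.le) (mul_nonneg h0.le hk0.le)]
          have h6 : 2 * (x - 1) / (k - 1) = -(2 * (1 - x) / (k - 1)) := by ring
          rw [h6]
          nlinarith
      have := hanti (show w ∈ Set.Icc (0 : ℝ) 1 from ⟨hw0, hw⟩)
        (show (1 : ℝ) ∈ Set.Icc (0 : ℝ) 1 by simp) hw
      rwa [hg1] at this
    · have hmono : MonotoneOn g (Set.Icc 1 k) := by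
        apply monotoneOn_of_deriv_nonneg (convex_Icc 1 k)
        · exact fun x _ => (hder x).continuousAt.continuousWithinAt
        · exact fun x _ => (hder x).differentiableAt.differentiableWithinAt
        · intro x hx
          rw [interior_Icc] at hx
          rw [(hder x).deriv]
          have h2 := (Real.concaveOn_rpow h0.le h1).2 (show (1 : ℝ) ∈ Set.Ici 0 by simp)
            (show k ∈ Set.Ici (0 : ℝ) from Set.mem_Ici.2 (by linarith))
            (show 0 ≤ 1 - (x - 1) / (k - 1) by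
              rw [sub_nonneg, div_le_one hk0]; linarith [hx.2])
            (show 0 ≤ (x - 1) / (k - 1) from div_nonneg (by linarith [hx.1]) hk0.le)
            (by ring)
          simp only [smul_eq_mul, Real.one_rpow, mul_one] at h2
          have h3 : 1 - (x - 1) / (k - 1) + (x - 1) / (k - 1) * k = x := by
            field_simp
            ring
          rw [h3] at h2
          have h4 : 0 ≤ (x - 1) / (k - 1) := div_nonneg (by linarith [hx.1]) hk0.le
          have h5 : 2 * (x - 1) / (k - 1) = 2 * ((x - 1) / (k - 1)) := by ring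
          rw [h5]
          have h6 : (x - 1) / (k - 1) * 2 ≤ x ^ η - 1 := by nlinarith
          nlinarith
      have := hmono (show (1 : ℝ) ∈ Set.Icc (1 : ℝ) k from ⟨le_rfl, hk.le⟩)
        (show w ∈ Set.Icc (1 : ℝ) k from ⟨hw, hwk⟩) hw
      rwa [hg1] at this
  simp only [g] at hgw
  linarith

/-- The pointwise inequality which is used, for the alphabet size `k` and the exponent `q`. -/
def Good (k : ℕ) (q : ℝ) : Prop :=
  ∀ w : ℝ, 0 ≤ w → w ≤ k → (w - 1) ^ 2 / (k - 1) ≤ w ^ q - 1 - q * (w - 1)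

theorem exists_good {η : ℝ} (h0 : 0 < η) (h1 : η ≤ 1) : ∃ k : ℕ, 2 ≤ k ∧ Good k (1 + η) := by
  have h2 : Filter.Tendsto (fun k : ℕ => (k : ℝ) ^ η) Filter.atTop Filter.atTop :=
    (tendsto_rpow_atTop h0).comp tendsto_natCast_atTop_atTop
  have h3 : Filter.Tendsto (fun k : ℕ => (k : ℝ)) Filter.atTop Filter.atTop :=
    tendsto_natCast_atTop_atTop
  obtain ⟨k, hk1, hk2, hk3⟩ := ((h2.eventually_ge_atTop 3).and
    ((h3.eventually_ge_atTop (2 / η + 1)).and (Filter.eventually_ge_atTop 2))).exists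
  refine ⟨k, hk3, fun w hw0 hwk => ?_⟩
  have hk3' : (2 : ℝ) ≤ k := by exact_mod_cast hk3
  exact pointwise h0 h1 (by linarith) hk1 (by linarith) hw0 hwk

variable {k : ℕ} {q : ℝ}

theorem norm_block (hk : 2 ≤ k) (hq1 : 1 ≤ q) (hq2 : q ≤ 2) (hgood : Good k q) (f : Fin k → ℝ)
    (hf : ∀ a, 0 ≤ f a) :
    ((∑ a, f a) / k) ^ 2 + ((∑ a, (f a - (∑ a, f a) / k) ^ 2) / k) / (k - 1) ≤
      (((∑ a, f a ^ q) / k) ^ (1 / q)) ^ 2 := by
  have hk' : (2 : ℝ) ≤ k := by exact_mod_cast hk
  have hk0 : (0 : ℝ) < k := by linarith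
  have hk1 : (0 : ℝ) < (k : ℝ) - 1 := by linarith
  have hq0 : 0 < q := by linarith
  set m : ℝ := (∑ a, f a) / k with hm
  have hsum : ∑ a, f a = k * m := by rw [hm]; field_simp
  have hm0 : 0 ≤ m := div_nonneg (Finset.sum_nonneg fun a _ => hf a) hk0.le
  rcases eq_or_lt_of_le hm0 with hz | hpos
  · have h1 : ∀ a, f a = 0 := by
      have h2 : ∑ a, f a = 0 := by rw [hsum, ← hz, mul_zero]
      rw [Finset.sum_eq_zero_iff_of_nonneg (fun a _ => hf a)] at h2
      exact fun a => h2 a (Finset.mem_univ a)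
    rw [← hz]
    simp only [h1]
    simp
    positivity
  · -- normalize
    have hle : ∀ a, f a / m ≤ k := by
      intro a
      rw [div_le_iff₀ hpos, ← hsum]
      exact Finset.single_le_sum (fun b _ => hf b) (Finset.mem_univ a)
    have hpt : ∑ a, ((f a / m - 1) ^ 2 / ((k : ℝ) - 1)) ≤
        ∑ a, ((f a / m) ^ q - 1 - q * (f a / m - 1)) :=
      Finset.sum_le_sum fun a _ => hgood _ (div_nonneg (hf a) hm0) (hle a)
    have hs1 : ∑ a, ((f a / m) ^ q - 1 - q * (f a / m - 1)) = (∑ a, (f a / m) ^ q) - k := by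
      have h2 : ∑ a, f a / m = k := by
        rw [← Finset.sum_div, hsum]
        field_simp
      simp only [Finset.sum_sub_distrib, ← Finset.mul_sum, h2]
      simp
    have hs2 : ∑ a, ((f a / m - 1) ^ 2 / ((k : ℝ) - 1)) =
        (∑ a, (f a - m) ^ 2) / (k - 1) / m ^ 2 := by
      rw [Finset.sum_div, Finset.sum_div]
      apply Finset.sum_congr rfl
      intro a _
      field_simp
    rw [hs1, hs2] at hpt
    set Q : ℝ := (∑ a, (f a / m) ^ q) / k with hQ
    have hQsum : ∑ a, (f a / m) ^ q = k * Q := by rw [hQ]; field_simp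
    have hV0 : 0 ≤ (∑ a, (f a - m) ^ 2) / ((k : ℝ) - 1) / m ^ 2 := by positivity
    have hQ1 : 1 + (∑ a, (f a - m) ^ 2) / ((k : ℝ) - 1) / m ^ 2 / k ≤ Q := by
      rw [hQsum] at hpt
      have h3 : (∑ a, (f a - m) ^ 2) / ((k : ℝ) - 1) / m ^ 2 / k ≤ Q - 1 := by
        rw [div_le_iff₀ hk0]
        linarith
      linarith
    have hQge : 1 ≤ Q := by
      have : 0 ≤ (∑ a, (f a - m) ^ 2) / ((k : ℝ) - 1) / m ^ 2 / k := div_nonneg hV0 hk0.le
      linarith
    have hQ2 : Q ≤ Q ^ (2 / q) := by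
      have h3 : Q ^ (1 : ℝ) ≤ Q ^ (2 / q) := by
        apply Real.rpow_le_rpow_of_exponent_le hQge
        rw [le_div_iff₀ hq0]
        linarith
      rwa [Real.rpow_one] at h3
    have hfq : (∑ a, f a ^ q) / k = m ^ q * Q := by
      rw [hQ, mul_div_assoc', Finset.mul_sum]
      congr 1
      apply Finset.sum_congr rfl
      intro a _
      rw [Real.div_rpow (hf a) hm0]
      field_simp
    have hrhs : (((∑ a, f a ^ q) / k) ^ (1 / q)) ^ 2 = m ^ 2 * Q ^ (2 / q) := by
      rw [hfq, Real.mul_rpow (by positivity) (by linarith), ← Real.rpow_mul hm0]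
      rw [mul_one_div_cancel hq0.ne', Real.rpow_one, mul_pow]
      congr 1
      rw [← Real.rpow_natCast, ← Real.rpow_mul (by linarith)]
      congr 1
      push_cast
      ring
    rw [hrhs]
    calc m ^ 2 + ((∑ a, (f a - m) ^ 2) / k) / (k - 1)
        = m ^ 2 * (1 + (∑ a, (f a - m) ^ 2) / ((k : ℝ) - 1) / m ^ 2 / k) := by
          field_simp
      _ ≤ m ^ 2 * Q := mul_le_mul_of_nonneg_left hQ1 (by positivity)
      _ ≤ m ^ 2 * Q ^ (2 / q) := mul_le_mul_of_nonneg_left hQ2 (by positivity)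

theorem block (hk : 2 ≤ k) (hq1 : 1 ≤ q) (hq2 : q ≤ 2) (hgood : Good k q) (f g : Fin k → ℝ)
    (hf : ∀ a, 0 ≤ f a) (hg : ∀ a, 0 ≤ g a) :
    (∑ a, ∑ b, if a ≠ b then f a * g b else 0) ≤
      (k * (k - 1)) * (((∑ a, f a ^ q) / k) ^ (1 / q) * ((∑ a, g a ^ q) / k) ^ (1 / q)) := by
  have hk' : (2 : ℝ) ≤ k := by exact_mod_cast hk
  have hk0 : (0 : ℝ) < k := by linarith
  have hk1 : (0 : ℝ) < (k : ℝ) - 1 := by linarith
  have hnf := norm_block hk hq1 hq2 hgood f hf
  have hng := norm_block hk hq1 hq2 hgood g hg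
  set F : ℝ := ((∑ a, f a ^ q) / k) ^ (1 / q) with hF
  set G : ℝ := ((∑ a, g a ^ q) / k) ^ (1 / q) with hG
  have hF0 : 0 ≤ F := Real.rpow_nonneg
    (div_nonneg (Finset.sum_nonneg fun a _ => Real.rpow_nonneg (hf a) _) hk0.le) _
  have hG0 : 0 ≤ G := Real.rpow_nonneg
    (div_nonneg (Finset.sum_nonneg fun a _ => Real.rpow_nonneg (hg a) _) hk0.le) _
  set m : ℝ := (∑ a, f a) / k with hm
  set l : ℝ := (∑ a, g a) / k with hl
  have hsf : ∑ a, f a = k * m := by rw [hm]; field_simp
  have hsg : ∑ a, g a = k * l := by rw [hl]; field_simp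
  have hm0 : 0 ≤ m := div_nonneg (Finset.sum_nonneg fun a _ => hf a) hk0.le
  have hl0 : 0 ≤ l := div_nonneg (Finset.sum_nonneg fun a _ => hg a) hk0.le
  set V : ℝ := (∑ a, (f a - m) ^ 2) / k with hV
  set W : ℝ := (∑ a, (g a - l) ^ 2) / k with hW
  have hV0 : 0 ≤ V := by positivity
  have hW0 : 0 ≤ W := by positivity
  set c : ℝ := (∑ a, (f a - m) * (g a - l)) / k with hc
  have hcs : c ^ 2 ≤ V * W := by
    have h1 := Finset.sum_mul_sq_le_sq_mul_sq Finset.univ (fun a => f a - m) (fun a => g a - l)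
    rw [hc, hV, hW, div_pow, div_mul_div_comm, ← sq]
    gcongr
  have hc' : c = (∑ a, f a * g a) / k - m * l := by
    have h1 : ∑ a, (f a - m) * (g a - l) = (∑ a, f a * g a) - k * (m * l) := by
      have h2 : ∀ a, (f a - m) * (g a - l) = f a * g a - f a * l - m * g a + m * l := by
        intro a; ring
      simp only [h2, Finset.sum_add_distrib, Finset.sum_sub_distrib, ← Finset.sum_mul,
        ← Finset.mul_sum, hsf, hsg]
      simp
      ring
    rw [hc, h1]
    field_simp
  have hlhs : (∑ a, ∑ b, if a ≠ b then f a * g b else 0) =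
      (k * (k - 1)) * (m * l - c / (k - 1)) := by
    have h1 : (∑ a, ∑ b, if a ≠ b then f a * g b else 0) =
        (∑ a, f a) * (∑ b, g b) - ∑ a, f a * g a := by
      rw [Finset.sum_mul_sum, ← Finset.sum_sub_distrib]
      apply Finset.sum_congr rfl
      intro a _
      have h2 : ∀ b, (if a ≠ b then f a * g b else 0) =
          f a * g b - (if a = b then f a * g b else 0) := by
        intro b
        by_cases hab : a = b <;> simp [hab]
      simp only [h2, Finset.sum_sub_distrib]
      simp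
    have h2 : ∑ a, f a * g a = k * (c + m * l) := by
      rw [hc']
      field_simp
      ring
    rw [h1, h2, hsf, hsg]
    field_simp
    ring
  rw [hlhs]
  apply mul_le_mul_of_nonneg_left _ (by positivity)
  have hFG : 0 ≤ F * G := mul_nonneg hF0 hG0
  refine le_of_sq_le_sq ?_ hFG
  calc (m * l - c / (k - 1)) ^ 2 ≤ (m ^ 2 + V / (k - 1)) * (l ^ 2 + W / (k - 1)) := by
        set ρ : ℝ := 1 / (k - 1) with hρ
        have hρ0 : 0 ≤ ρ := by positivity
        have e1 : c / (k - 1) = ρ * c := by rw [hρ]; ring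
        have e2 : V / (k - 1) = ρ * V := by rw [hρ]; ring
        have e3 : W / (k - 1) = ρ * W := by rw [hρ]; ring
        rw [e1, e2, e3]
        have h3 : |c| ≤ Real.sqrt V * Real.sqrt W := by
          rw [← Real.sqrt_mul hV0, ← Real.sqrt_sq_eq_abs]
          exact Real.sqrt_le_sqrt hcs
        have h4 : -(2 * (m * l) * c) ≤ m ^ 2 * W + l ^ 2 * V := by
          have h5 : -c ≤ Real.sqrt V * Real.sqrt W := (neg_le_abs c).trans h3
          have h6 : 0 ≤ m * l := mul_nonneg hm0 hl0
          have h7 := Real.sq_sqrt hV0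
          have h8 := Real.sq_sqrt hW0
          calc -(2 * (m * l) * c) = 2 * (m * l) * (-c) := by ring
            _ ≤ 2 * (m * l) * (Real.sqrt V * Real.sqrt W) :=
                mul_le_mul_of_nonneg_left h5 (by positivity)
            _ ≤ (m * Real.sqrt W) ^ 2 + (l * Real.sqrt V) ^ 2 := by
                nlinarith [sq_nonneg (m * Real.sqrt W - l * Real.sqrt V)]
            _ = m ^ 2 * W + l ^ 2 * V := by rw [mul_pow, mul_pow, h7, h8]
        have h9 : ρ ^ 2 * c ^ 2 ≤ ρ ^ 2 * (V * W) := mul_le_mul_of_nonneg_left hcs (by positivity)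
        have h10 : ρ * (-(2 * (m * l) * c)) ≤ ρ * (m ^ 2 * W + l ^ 2 * V) :=
          mul_le_mul_of_nonneg_left h4 hρ0
        nlinarith
    _ ≤ F ^ 2 * G ^ 2 := by
        apply mul_le_mul hnf hng (by positivity) (by positivity)
    _ = (F * G) ^ 2 := by ring

theorem sum_cons {D : ℕ} (F : (Fin (D + 1) → Fin k) → ℝ) :
    ∑ a, F a = ∑ x : Fin k, ∑ a : Fin D → Fin k, F (Fin.cons x a) := by
  rw [← Fintype.sum_prod_type']
  exact (Fintype.sum_equiv (Fin.consEquiv (fun _ => Fin k)) _ _ (fun _ => rfl)).symm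

theorem tensor (hk : 2 ≤ k) (hq1 : 1 ≤ q) (hq2 : q ≤ 2) (hgood : Good k q) :
    ∀ (D : ℕ) (f g : (Fin D → Fin k) → ℝ), (∀ a, 0 ≤ f a) → (∀ a, 0 ≤ g a) →
    (∑ a, ∑ b, if (∀ c, a c ≠ b c) then f a * g b else 0) ≤
      (k * (k - 1) : ℝ) ^ D * (((∑ a, f a ^ q) / (k : ℝ) ^ D) ^ (1 / q) *
        ((∑ a, g a ^ q) / (k : ℝ) ^ D) ^ (1 / q)) := by
  have hk' : (2 : ℝ) ≤ k := by exact_mod_cast hk
  have hk0 : (0 : ℝ) < k := by linarith
  have hk1 : (0 : ℝ) < (k : ℝ) - 1 := by linarith
  have hq0 : 0 < q := by linarith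
  intro D
  induction D with
  | zero =>
    intro f g hf hg
    have h1 : ∀ x : ℝ, 0 ≤ x → (x ^ q) ^ (1 / q) = x := by
      intro x hx
      rw [← Real.rpow_mul hx, mul_one_div_cancel hq0.ne', Real.rpow_one]
    simp only [Finset.univ_unique, Finset.sum_singleton, pow_zero, one_mul, div_one]
    rw [h1 _ (hf _), h1 _ (hg _)]
    simp
  | succ D ih =>
    intro f g hf hg
    let u : Fin k → ℝ := fun x => ((∑ a, f (Fin.cons x a) ^ q) / (k : ℝ) ^ D) ^ (1 / q)
    let v : Fin k → ℝ := fun x => ((∑ a, g (Fin.cons x a) ^ q) / (k : ℝ) ^ D) ^ (1 / q)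
    have hfs : ∀ x, 0 ≤ (∑ a, f (Fin.cons x a) ^ q) / (k : ℝ) ^ D := fun x =>
      div_nonneg (Finset.sum_nonneg fun a _ => Real.rpow_nonneg (hf _) _) (by positivity)
    have hgs : ∀ x, 0 ≤ (∑ a, g (Fin.cons x a) ^ q) / (k : ℝ) ^ D := fun x =>
      div_nonneg (Finset.sum_nonneg fun a _ => Real.rpow_nonneg (hg _) _) (by positivity)
    have hu : ∀ x, 0 ≤ u x := fun x => Real.rpow_nonneg (hfs x) _
    have hv : ∀ x, 0 ≤ v x := fun x => Real.rpow_nonneg (hgs x) _
    have huq : (∑ x, u x ^ q) / k = (∑ a, f a ^ q) / (k : ℝ) ^ (D + 1) := by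
      have h1 : ∀ x, u x ^ q = (∑ a, f (Fin.cons x a) ^ q) / (k : ℝ) ^ D := by
        intro x
        simp only [u]
        rw [← Real.rpow_mul (hfs x), one_div_mul_cancel hq0.ne', Real.rpow_one]
      simp only [h1]
      rw [sum_cons, ← Finset.sum_div, pow_succ, div_div]
    have hvq : (∑ x, v x ^ q) / k = (∑ a, g a ^ q) / (k : ℝ) ^ (D + 1) := by
      have h1 : ∀ x, v x ^ q = (∑ a, g (Fin.cons x a) ^ q) / (k : ℝ) ^ D := by
        intro x
        simp only [v]
        rw [← Real.rpow_mul (hgs x), one_div_mul_cancel hq0.ne', Real.rpow_one]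
      simp only [h1]
      rw [sum_cons, ← Finset.sum_div, pow_succ, div_div]
    have hcons : ∀ (x y : Fin k) (a b : Fin D → Fin k),
        (∀ c, (Fin.cons x a : Fin (D + 1) → Fin k) c ≠ (Fin.cons y b : Fin (D + 1) → Fin k) c) ↔
          (x ≠ y ∧ ∀ c, a c ≠ b c) := by
      intro x y a b
      rw [Fin.forall_fin_succ]
      simp
    have hsplit : (∑ a, ∑ b, if (∀ c, a c ≠ b c) then f a * g b else 0) =
        ∑ x, ∑ y, if x ≠ y then (∑ a : Fin D → Fin k, ∑ b : Fin D → Fin k,
          if (∀ c, a c ≠ b c) then f (Fin.cons x a) * g (Fin.cons y b) else 0) else 0 := by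
      rw [sum_cons]
      apply Finset.sum_congr rfl
      intro x _
      have h1 : ∀ a : Fin D → Fin k, (∑ b : Fin (D + 1) → Fin k,
          if (∀ c, (Fin.cons x a : Fin (D + 1) → Fin k) c ≠ b c) then
            f (Fin.cons x a) * g b else 0) =
          ∑ y, ∑ b : Fin D → Fin k, if (x ≠ y ∧ ∀ c, a c ≠ b c) then
            f (Fin.cons x a) * g (Fin.cons y b) else 0 := by
        intro a
        rw [sum_cons]
        simp only [hcons]
      simp only [h1]
      rw [Finset.sum_comm]
      apply Finset.sum_congr rfl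
      intro y _
      by_cases hxy : x = y
      · simp [hxy]
      · simp [hxy]
    rw [hsplit]
    calc (∑ x, ∑ y, if x ≠ y then (∑ a : Fin D → Fin k, ∑ b : Fin D → Fin k,
          if (∀ c, a c ≠ b c) then f (Fin.cons x a) * g (Fin.cons y b) else 0) else 0)
        ≤ ∑ x, ∑ y, if x ≠ y then ((k * (k - 1) : ℝ) ^ D * (u x * v y)) else 0 := by
          apply Finset.sum_le_sum
          intro x _
          apply Finset.sum_le_sum
          intro y _
          by_cases hxy : x = y
          · simp [hxy]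
          · simp only [ne_eq, hxy, not_false_iff, if_true]
            exact ih _ _ (fun a => hf _) (fun a => hg _)
      _ = (k * (k - 1) : ℝ) ^ D * ∑ x, ∑ y, if x ≠ y then u x * v y else 0 := by
          rw [Finset.mul_sum]
          apply Finset.sum_congr rfl
          intro x _
          rw [Finset.mul_sum]
          apply Finset.sum_congr rfl
          intro y _
          by_cases hxy : x = y <;> simp [hxy]
      _ ≤ (k * (k - 1) : ℝ) ^ D * ((k * (k - 1)) * (((∑ x, u x ^ q) / k) ^ (1 / q) *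
          ((∑ x, v x ^ q) / k) ^ (1 / q))) := by
          apply mul_le_mul_of_nonneg_left (block hk hq1 hq2 hgood u v hu hv) (by positivity)
      _ = _ := by
          rw [huq, hvq, pow_succ]
          ring

/-- The inequality for sets, given by indicator functions. -/
theorem tensor_set (hk : 2 ≤ k) (hq1 : 1 ≤ q) (hq2 : q ≤ 2) (hgood : Good k q) {D : ℕ}
    (f g : (Fin D → Fin k) → ℝ) (hf : ∀ a, f a = 0 ∨ f a = 1) (hg : ∀ a, g a = 0 ∨ g a = 1) :
    (∑ a, ∑ b, if (∀ c, a c ≠ b c) then f a * g b else 0) ≤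
      (k * (k - 1) : ℝ) ^ D * (((∑ a, f a) / (k : ℝ) ^ D) ^ (1 / q) *
        ((∑ a, g a) / (k : ℝ) ^ D) ^ (1 / q)) := by
  have hq0 : q ≠ 0 := by linarith
  have h1 : ∀ a, f a ^ q = f a := by
    intro a
    rcases hf a with h | h <;> rw [h] <;> simp [hq0]
  have h2 : ∀ a, g a ^ q = g a := by
    intro a
    rcases hg a with h | h <;> rw [h] <;> simp [hq0]
  have := tensor hk hq1 hq2 hgood D f g
    (fun a => by rcases hf a with h | h <;> rw [h]; exact zero_le_one)
    (fun a => by rcases hg a with h | h <;> rw [h]; exact zero_le_one)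
  simpa only [h1, h2] using this

/-- Strings of length `D` over an alphabet with `k` letters. -/
abbrev Str (k D : ℕ) : Type := Fin D → Fin k

/-- The two strings differ everywhere. -/
abbrev Off {k D : ℕ} (a b : Str k D) : Prop := ∀ c, a c ≠ b c

variable {n d D : ℕ}

theorem resample {U : Type} [Fintype U] (i : Fin n) (h : (Fin n → U) → ℝ) :
    ∑ z, ∑ a, h (Function.update z i a) = Fintype.card U * ∑ z, h z := by
  classical
  rw [← Fintype.sum_prod_type']
  have hinv : Function.Involutive fun p : (Fin n → U) × U =>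
      (Function.update p.1 i p.2, p.1 i) := by
    rintro ⟨z, a⟩
    simp
  have h1 : ∑ p : (Fin n → U) × U, h (Function.update p.1 i p.2) =
      ∑ p : (Fin n → U) × U, h p.1 :=
    Fintype.sum_equiv (hinv.toPerm _) _ _ (fun _ => rfl)
  rw [h1, Fintype.sum_prod_type]
  simp only [Finset.sum_const, Finset.card_univ, nsmul_eq_mul]
  rw [← Finset.mul_sum]

theorem count_off (hk : 1 ≤ k) (s : Str k D) :
    (∑ a : Str k D, if Off a s then (1 : ℝ) else 0) = ((k : ℝ) - 1) ^ D := by
  classical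
  rw [← Finset.sum_filter, Finset.sum_const, nsmul_eq_mul, mul_one]
  have h1 : (Finset.univ.filter fun a : Str k D => Off a s) =
      Fintype.piFinset fun c => Finset.univ.erase (s c) := by
    ext a
    simp [Fintype.mem_piFinset]
  rw [h1, Fintype.card_piFinset]
  simp only [Finset.card_erase_of_mem (Finset.mem_univ _), Finset.card_univ, Fintype.card_fin,
    Finset.prod_const]
  push_cast [Nat.cast_sub hk]
  ring

theorem count_off' (hk : 1 ≤ k) (s : Str k D) :
    (∑ a : Str k D, if Off s a then (1 : ℝ) else 0) = ((k : ℝ) - 1) ^ D := by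
  rw [← count_off hk s]
  apply Finset.sum_congr rfl
  intro a _
  have : Off s a ↔ Off a s := forall_congr' fun c => ne_comm
  simp only [this]

theorem count_pairs (hk : 2 ≤ k) :
    (∑ a : Str k D, ∑ b : Str k D, if Off a b then (1 : ℝ) else 0) =
      (k * (k - 1) : ℝ) ^ D := by
  simp only [count_off' (by omega : 1 ≤ k)]
  simp only [Finset.sum_const, Finset.card_univ, Fintype.card_fun, Fintype.card_fin, nsmul_eq_mul]
  push_cast
  rw [mul_pow]

end Pool.Agent.H58.OVAC
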