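import Pool.Agent.H58.OVAC.Table
import Pool.Agent.H58.OVAC.Blocks

/-! The expected number of interactions of a circuit all of whose gates have small influence. -/

set_option autoImplicit false
set_option maxHeartbeats 4000000

namespace Pool.Agent.H58.OVAC

/-- The average over the pairs of strings which differ everywhere. -/
noncomputable def avR {k D : ℕ} (Φ : Str k D → Str k D → ℝ) : ℝ :=
  (∑ a, ∑ b, if Off a b then Φ a b else 0) / ((k * (k - 1) : ℝ) ^ D)

section

variable {k D : ℕ}

theorem avR_mono (hk : 2 ≤ k) {Φ Ψ : Str k D → Str k D → ℝ} (h : ∀ a b, Off a b → Φ a b ≤ Ψ a b) :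
    avR Φ ≤ avR Ψ := by
  have hk' : (2 : ℝ) ≤ k := by exact_mod_cast hk
  have h0 : (0 : ℝ) ≤ (k * (k - 1) : ℝ) ^ D := by
    apply pow_nonneg
    nlinarith
  apply div_le_div_of_nonneg_right _ h0
  refine Finset.sum_le_sum fun a _ => Finset.sum_le_sum fun b _ => ?_
  by_cases hab : Off a b
  · rw [if_pos hab, if_pos hab]
    exact h a b hab
  · rw [if_neg hab, if_neg hab]

theorem avR_add (Φ Ψ : Str k D → Str k D → ℝ) :
    avR (fun a b => Φ a b + Ψ a b) = avR Φ + avR Ψ := by
  unfold avR
  rw [← add_div, ← Finset.sum_add_distrib]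
  congr 1
  refine Finset.sum_congr rfl fun a _ => ?_
  rw [← Finset.sum_add_distrib]
  refine Finset.sum_congr rfl fun b _ => ?_
  split_ifs <;> simp

theorem avR_sum {ι : Type} (s : Finset ι) (Φ : ι → Str k D → Str k D → ℝ) :
    avR (fun a b => ∑ i ∈ s, Φ i a b) = ∑ i ∈ s, avR (Φ i) := by
  classical
  induction s using Finset.induction_on with
  | empty =>
    unfold avR
    simp
  | insert i s hi ih =>
    rw [Finset.sum_insert hi, ← ih, ← avR_add]
    congr 1
    funext a b
    rw [Finset.sum_insert hi]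

theorem avR_const (hk : 2 ≤ k) (c : ℝ) : avR (fun _ _ : Str k D => c) = c := by
  have hk' : (2 : ℝ) ≤ k := by exact_mod_cast hk
  have h0 : (0 : ℝ) < (k * (k - 1) : ℝ) ^ D := by
    apply pow_pos
    nlinarith
  unfold avR
  have h1 : (∑ a : Str k D, ∑ b : Str k D, if Off a b then c else 0) =
      c * ∑ a : Str k D, ∑ b : Str k D, if Off a b then (1 : ℝ) else 0 := by
    rw [Finset.mul_sum]
    refine Finset.sum_congr rfl fun a _ => ?_
    rw [Finset.mul_sum]
    refine Finset.sum_congr rfl fun b _ => ?_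
    split_ifs <;> simp
  rw [h1, count_pairs hk, mul_div_assoc, div_self h0.ne', mul_one]

theorem rpow_sum_le {n : ℕ} {q : ℝ} (hq1 : 1 ≤ q) (s : Fin n → ℝ) (h0 : ∀ i, 0 ≤ s i) {M : ℝ}
    (hM : ∑ i, s i ≤ M) : ∑ i, s i ^ (1 / q) ≤ (n : ℝ) ^ (1 - 1 / q) * (M + 1) := by
  rcases Nat.eq_zero_or_pos n with hn | hn
  · subst hn
    simp only [Finset.univ_eq_empty, Finset.sum_empty] at hM ⊢
    have : (0 : ℝ) ≤ ((0 : ℕ) : ℝ) ^ (1 - 1 / q) := Real.rpow_nonneg (by simp) _
    have h2 : 0 ≤ M + 1 := by linarith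
    positivity
  have hn' : (1 : ℝ) ≤ n := by exact_mod_cast hn
  have hn0 : (0 : ℝ) < n := by linarith
  have hq0 : 0 < q := by linarith
  have hq : 1 / q ≤ 1 := by rw [div_le_one hq0]; exact hq1
  have hq' : 0 < 1 / q := by positivity
  have hone : ∀ i, s i ^ (1 / q) ≤ (n : ℝ) ^ (1 - 1 / q) * (s i + 1 / n) := by
    intro i
    have hP : 0 < (n : ℝ) ^ (1 - 1 / q) := Real.rpow_pos_of_pos hn0 _
    rcases le_total (1 / (n : ℝ)) (s i) with h | h
    · have hs : 0 < s i := lt_of_lt_of_le (by positivity) h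
      have h1 : s i ^ (1 / q) = s i * s i ^ (1 / q - 1) := by
        rw [← Real.rpow_one_add' (h0 i) (by linarith)]
        congr 1
        ring
      have h2 : s i ^ (1 / q - 1) ≤ (n : ℝ) ^ (1 - 1 / q) := by
        have h3 : s i ^ (1 / q - 1) ≤ (1 / (n : ℝ)) ^ (1 / q - 1) :=
          Real.rpow_le_rpow_of_nonpos (by positivity) h (by linarith)
        refine h3.trans (le_of_eq ?_)
        rw [one_div, Real.inv_rpow hn0.le, ← Real.rpow_neg hn0.le]
        congr 1
        ring
      rw [h1]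
      calc s i * s i ^ (1 / q - 1) ≤ s i * (n : ℝ) ^ (1 - 1 / q) :=
            mul_le_mul_of_nonneg_left h2 hs.le
        _ ≤ (n : ℝ) ^ (1 - 1 / q) * (s i + 1 / n) := by
            rw [mul_comm]
            apply mul_le_mul_of_nonneg_left _ hP.le
            have : 0 < 1 / (n : ℝ) := by positivity
            linarith
    · calc s i ^ (1 / q) ≤ (1 / (n : ℝ)) ^ (1 / q) := Real.rpow_le_rpow (h0 i) h hq'.le
        _ = (n : ℝ) ^ (1 - 1 / q) * (1 / n) := by
            rw [one_div (n : ℝ), Real.inv_rpow hn0.le, ← Real.rpow_neg hn0.le,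
              ← Real.rpow_neg_one (n : ℝ), ← Real.rpow_add hn0]
            congr 1
            ring
        _ ≤ _ := by
            apply mul_le_mul_of_nonneg_left _ hP.le
            linarith [h0 i]
  refine (Finset.sum_le_sum fun i _ => hone i).trans ?_
  rw [← Finset.mul_sum, Finset.sum_add_distrib, Finset.sum_const, Finset.card_univ,
    Fintype.card_fin, nsmul_eq_mul, mul_one_div_cancel hn0.ne']
  apply mul_le_mul_of_nonneg_left _ (Real.rpow_nonneg hn0.le _)
  linarith

/-- The expected number of pairs `(i, j)` such that `u` reacts to `i` and `v` reacts to `j`. -/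
theorem pair_bound {n : ℕ} {q : ℝ} (hk : 2 ≤ k) (hq1 : 1 ≤ q) (hq2 : q ≤ 2) (hgood : Good k q)
    (u v : (Bool × Fin n → Str k D) → Bool) (y : Bool × Fin n → Str k D) {M : ℝ}
    (hu : infl u y ≤ M) (hv : infl v y ≤ M) :
    avR (fun a b => (NA u y a : ℝ) * (NB v y b : ℝ)) ≤
      ((n : ℝ) ^ (1 - 1 / q) * (M + 1)) ^ 2 := by
  classical
  have hk' : (2 : ℝ) ≤ k := by exact_mod_cast hk
  have hR : (0 : ℝ) < (k * (k - 1) : ℝ) ^ D := by
    apply pow_pos
    nlinarith
  have hcard : ((Fintype.card (Str k D) : ℕ) : ℝ) = (k : ℝ) ^ D := by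
    simp [Fintype.card_fun, Fintype.card_fin]
  let s : Fin n → ℝ := fun i => pr fun α : Str k D => u (Function.update y (false, i) α) ≠ u y
  let t : Fin n → ℝ := fun j => pr fun α : Str k D => v (Function.update y (true, j) α) ≠ v y
  have hs0 : ∀ i, 0 ≤ s i := fun i => pr_nonneg _
  have ht0 : ∀ i, 0 ≤ t i := fun i => pr_nonneg _
  have hsM : ∑ i, s i ≤ M := by
    refine le_trans ?_ hu
    unfold infl
    rw [Fintype.sum_prod_type, Fintype.sum_bool]
    have : 0 ≤ ∑ x : Fin n, pr fun α : Str k D => u (Function.update y (true, x) α) ≠ u y :=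
      Finset.sum_nonneg fun i _ => pr_nonneg _
    linarith
  have htM : ∑ i, t i ≤ M := by
    refine le_trans ?_ hv
    unfold infl
    rw [Fintype.sum_prod_type, Fintype.sum_bool]
    have : 0 ≤ ∑ x : Fin n, pr fun α : Str k D => v (Function.update y (false, x) α) ≠ v y :=
      Finset.sum_nonneg fun i _ => pr_nonneg _
    linarith
  have h1 : ∀ a b, (NA u y a : ℝ) * (NB v y b : ℝ) = ∑ i, ∑ j,
      (if sA u y a i then (1 : ℝ) else 0) * (if sB v y b j then (1 : ℝ) else 0) := by
    intro a b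
    unfold NA NB
    rw [Finset.card_filter, Finset.card_filter]
    push_cast
    rw [Finset.sum_mul_sum]
  have h2 : avR (fun a b => (NA u y a : ℝ) * (NB v y b : ℝ)) = ∑ i, ∑ j,
      avR (fun a b => (if sA u y a i then (1 : ℝ) else 0) *
        (if sB v y b j then (1 : ℝ) else 0)) := by
    simp only [h1]
    rw [avR_sum]
    refine Finset.sum_congr rfl fun i _ => ?_
    rw [avR_sum]
  have h3 : ∀ i j, avR (fun a b => (if sA u y a i then (1 : ℝ) else 0) *
        (if sB v y b j then (1 : ℝ) else 0)) ≤ s i ^ (1 / q) * t j ^ (1 / q) := by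
    intro i j
    have h4 := tensor_set hk hq1 hq2 hgood (D := D)
      (fun a => if sA u y a i then (1 : ℝ) else 0) (fun b => if sB v y b j then (1 : ℝ) else 0)
      (fun a => by by_cases h : sA u y a i <;> simp [h])
      (fun b => by by_cases h : sB v y b j <;> simp [h])
    have h5 : (∑ a : Str k D, if sA u y a i then (1 : ℝ) else 0) / (k : ℝ) ^ D = s i := by
      simp only [s]
      unfold pr av
      rw [hcard]
      congr 1
    have h6 : (∑ b : Str k D, if sB v y b j then (1 : ℝ) else 0) / (k : ℝ) ^ D = t j := by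
      simp only [t]
      unfold pr av
      rw [hcard]
      congr 1
    rw [h5, h6] at h4
    unfold avR
    rw [div_le_iff₀ hR, mul_comm]
    exact h4
  rw [h2]
  refine (Finset.sum_le_sum fun i _ => Finset.sum_le_sum fun j _ => h3 i j).trans ?_
  rw [← Finset.sum_mul_sum, sq]
  have h7 := rpow_sum_le hq1 s hs0 hsM
  have h8 := rpow_sum_le hq1 t ht0 htM
  exact mul_le_mul h7 h8 (Finset.sum_nonneg fun i _ => Real.rpow_nonneg (ht0 i) _)
    ((Finset.sum_nonneg fun i _ => Real.rpow_nonneg (hs0 i) _).trans h7)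

end

section

variable {V X : Type} [DecidableEq V] [Fintype V] [Fintype X] [Nonempty X]

theorem infl_neg (u : (V → X) → Bool) (y : V → X) : infl (fun x => !u x) y = infl u y := by
  unfold infl
  refine Finset.sum_congr rfl fun p _ => pr_congr fun α => ?_
  simp only [ne_eq, Bool.not_eq_not]
  cases u (Function.update y p α) <;> cases u y <;> simp

theorem infl_const (c : Bool) (y : V → X) : infl (fun _ => c) y = 0 := by
  unfold infl
  exact Finset.sum_eq_zero fun p _ => pr_eq_zero fun α h => h rfl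

theorem infl_depOne {u : (V → X) → Bool} (hu : DepOne u) (y : V → X) : infl u y ≤ 1 := by
  obtain ⟨P, h1, h2⟩ := hu
  unfold infl
  have h3 : ∀ p, p ∉ P → (pr fun α : X => u (Function.update y p α) ≠ u y) = 0 := by
    intro p hp
    refine pr_eq_zero fun α h => h (h2 _ _ fun r hr => ?_)
    have : r ≠ p := by rintro rfl; exact hp hr
    simp [this]
  rw [← Finset.sum_subset (Finset.subset_univ P) fun p _ hp => h3 p hp]
  calc (∑ p ∈ P, pr fun α : X => u (Function.update y p α) ≠ u y) ≤ ∑ _p ∈ P, (1 : ℝ) :=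
        Finset.sum_le_sum fun p _ => pr_le_one _
    _ = P.card := by simp
    _ ≤ 1 := by exact_mod_cast h1

end

open Classical in
/-- The expected number of interactions at the output. -/
theorem count {n k D : ℕ} {q : ℝ} (hk : 2 ≤ k) (hq1 : 1 ≤ q) (hq2 : q ≤ 2) (hgood : Good k q)
    (N : Net (Bool × Fin n) (Str k D)) (out : Fin N.G) (y : Bool × Fin n → Str k D) {M : ℝ}
    (hM : 1 ≤ M) (hN : ∀ g, infl (N.U g) y ≤ M) :
    avR (fun a b => ((Finset.univ.filter fun p : Fin n × Fin n =>
      ¬ Add (N.U out) y a b p.1 p.2).card : ℝ)) ≤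
      N.wires * (4 * ((n : ℝ) ^ (1 - 1 / q) * (M + 1)) ^ 2) := by
  have hne : Nonempty (Str k D) := ⟨fun _ => ⟨0, by omega⟩⟩
  have hw : ∀ g k', infl (N.w g k') y ≤ M := by
    intro g k'
    rcases N.hw g k' with h1 | ⟨g', h1, h2⟩
    · exact (infl_depOne h1 y).trans hM
    · rcases h2 with h2 | h2
      · rw [h2]
        exact hN g'
      · rw [h2, infl_neg]
        exact hN g'
  have hf : ∀ g, infl (N.first g y) y ≤ M := by
    intro g
    unfold Net.first
    split_ifs with h
    · exact hw _ _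
    · rw [infl_const]
      linarith
  set B : ℝ := ((n : ℝ) ^ (1 - 1 / q) * (M + 1)) ^ 2 with hB
  have h1 : avR (fun a b => ((Finset.univ.filter fun p : Fin n × Fin n =>
      ¬ Add (N.U out) y a b p.1 p.2).card : ℝ)) ≤
      avR (fun a b : Str k D => ∑ g, ∑ k', ((NA (N.w g k') y a : ℝ) * (NB (N.U g) y b : ℝ) +
        (NA (N.U g) y a : ℝ) * (NB (N.w g k') y b : ℝ) +
        (NA (N.first g y) y a : ℝ) * (NB (N.w g k') y b : ℝ) +
        (NA (N.w g k') y a : ℝ) * (NB (N.first g y) y b : ℝ))) := by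
    apply avR_mono hk
    intro a b _
    exact_mod_cast N.int_card out y a b
  refine h1.trans ?_
  rw [avR_sum]
  have h2 : ∀ g, avR (fun a b : Str k D => ∑ k', ((NA (N.w g k') y a : ℝ) * (NB (N.U g) y b : ℝ) +
        (NA (N.U g) y a : ℝ) * (NB (N.w g k') y b : ℝ) +
        (NA (N.first g y) y a : ℝ) * (NB (N.w g k') y b : ℝ) +
        (NA (N.w g k') y a : ℝ) * (NB (N.first g y) y b : ℝ))) ≤ N.deg g * (4 * B) := by
    intro g
    rw [avR_sum]
    have h3 : ∀ k' : Fin (N.deg g), avR (fun a b : Str k D =>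
        ((NA (N.w g k') y a : ℝ) * (NB (N.U g) y b : ℝ) +
        (NA (N.U g) y a : ℝ) * (NB (N.w g k') y b : ℝ) +
        (NA (N.first g y) y a : ℝ) * (NB (N.w g k') y b : ℝ) +
        (NA (N.w g k') y a : ℝ) * (NB (N.first g y) y b : ℝ))) ≤ 4 * B := by
      intro k'
      rw [avR_add, avR_add, avR_add]
      have e1 := pair_bound hk hq1 hq2 hgood (N.w g k') (N.U g) y (hw g k') (hN g)
      have e2 := pair_bound hk hq1 hq2 hgood (N.U g) (N.w g k') y (hN g) (hw g k')
      have e3 := pair_bound hk hq1 hq2 hgood (N.first g y) (N.w g k') y (hf g) (hw g k')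
      have e4 := pair_bound hk hq1 hq2 hgood (N.w g k') (N.first g y) y (hw g k') (hf g)
      linarith
    refine (Finset.sum_le_sum fun k' _ => h3 k').trans ?_
    rw [Finset.sum_const, Finset.card_univ, Fintype.card_fin, nsmul_eq_mul]
  refine (Finset.sum_le_sum fun g _ => h2 g).trans ?_
  rw [← Finset.sum_mul]
  unfold Net.wires
  push_cast
  exact le_rfl

end Pool.Agent.H58.OVAC
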