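import Pool.Agent.H58.OVAC.Avg

/-! The restriction lemma for functions with short certificates. -/

set_option autoImplicit false
set_option maxHeartbeats 4000000

namespace Pool.Agent.H58.OVAC

/-- Boolean functions on the cube. -/
abbrev BF (V : Type) : Type := (V → Bool) → Bool

/-- The function depends on at most `t` coordinates. -/
def IsJunta {V Y : Type} (t : ℕ) (f : (V → Bool) → Y) : Prop :=
  ∃ J : Finset V, J.card ≤ t ∧ ∀ σ τ : V → Bool, (∀ i ∈ J, σ i = τ i) → f σ = f τ

/-- Every one-input has a certificate of size at most `t`. -/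
def Cert {V : Type} (t : ℕ) (f : BF V) : Prop :=
  ∀ σ : V → Bool, f σ = true → ∃ J : Finset V, J.card ≤ t ∧
    ∀ τ : V → Bool, (∀ i ∈ J, τ i = σ i) → f τ = true

/-- The restriction: the coordinates of colour `j` stay alive, the others are fixed. -/
def restr {V Y : Type} {N : ℕ} (ω : V → Fin N × Bool) (j : Fin N) (f : (V → Bool) → Y) :
    (V → Bool) → Y :=
  fun τ => f fun i => if (ω i).1 = j then τ i else (ω i).2

section basic

variable {V : Type}

theorem IsJunta.mono {Y : Type} {s t : ℕ} (h : s ≤ t) {f : (V → Bool) → Y} (hf : IsJunta s f) : IsJunta t f := by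
  obtain ⟨J, h1, h2⟩ := hf
  exact ⟨J, h1.trans h, h2⟩

theorem IsJunta.neg {t : ℕ} {f : BF V} (hf : IsJunta t f) : IsJunta t fun σ => !f σ := by
  obtain ⟨J, h1, h2⟩ := hf
  exact ⟨J, h1, fun σ τ h => by simp only [h2 σ τ h]⟩

theorem IsJunta.comp {Y Z : Type} {t : ℕ} {f : (V → Bool) → Y} (hf : IsJunta t f) (g : Y → Z) :
    IsJunta t fun σ => g (f σ) := by
  obtain ⟨J, h1, h2⟩ := hf
  exact ⟨J, h1, fun σ τ h => by simp only [h2 σ τ h]⟩

theorem IsJunta.restr {Y : Type} {t N : ℕ} {f : (V → Bool) → Y} (hf : IsJunta t f) (ω : V → Fin N × Bool)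
    (j : Fin N) : IsJunta t (restr ω j f) := by
  obtain ⟨J, h1, h2⟩ := hf
  refine ⟨J, h1, fun σ τ h => h2 _ _ fun i hi => ?_⟩
  simp only [h i hi]

theorem isJunta_const {Y : Type} (t : ℕ) (f : (V → Bool) → Y) (hf : ∀ σ τ, f σ = f τ) : IsJunta t f :=
  ⟨∅, by simp, fun σ τ _ => hf σ τ⟩

theorem isJunta_of_cert_zero {f : BF V} (hf : Cert 0 f) (t : ℕ) : IsJunta t f := by
  by_cases h : ∃ σ, f σ = true
  · obtain ⟨σ, hσ⟩ := h
    obtain ⟨J, h1, h2⟩ := hf σ hσ
    have hJ : J = ∅ := Finset.card_eq_zero.1 (Nat.le_zero.1 h1)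
    subst hJ
    have h3 : ∀ τ, f τ = true := fun τ => h2 τ fun i hi => absurd hi (Finset.notMem_empty i)
    exact isJunta_const t f fun σ τ => by rw [h3, h3]
  · push Not at h
    exact isJunta_const t f fun σ τ => by
      rw [Bool.eq_false_iff.2 (h σ), Bool.eq_false_iff.2 (h τ)]

/-- A disjunction of juntas has short certificates. -/
theorem cert_of_or {t : ℕ} {f : BF V} (C : Set (BF V)) (hC : ∀ c ∈ C, IsJunta t c)
    (hf : ∀ σ, f σ = true ↔ ∃ c ∈ C, c σ = true) : Cert t f := by
  intro σ hσ
  obtain ⟨c, hc, h1⟩ := (hf σ).1 hσ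
  obtain ⟨J, h2, h3⟩ := hC c hc
  exact ⟨J, h2, fun τ hτ => (hf τ).2 ⟨c, hc, by rw [h3 τ σ hτ, h1]⟩⟩

end basic

section dichotomy

variable {V : Type} [DecidableEq V]

/-- Lists of pairwise disjoint certificates. -/
def CertList (t : ℕ) (f : BF V) (l : List (Finset V × (V → Bool))) : Prop :=
  l.Pairwise (fun p q => Disjoint p.1 q.1) ∧
    ∀ p ∈ l, p.1.card ≤ t ∧ ∀ τ : V → Bool, (∀ i ∈ p.1, τ i = p.2 i) → f τ = true

theorem dichotomy {t : ℕ} {f : BF V} (hf : Cert (t + 1) f) (k : ℕ) :
    (∃ l, CertList (t + 1) f l ∧ l.length = k) ∨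
      ∃ H : Finset V, H.card ≤ (t + 1) * k ∧ ∀ a : V → Bool, Cert t fun τ => f (mix H a τ) := by
  induction k with
  | zero => exact Or.inl ⟨[], ⟨List.Pairwise.nil, by simp⟩, rfl⟩
  | succ k ih =>
    rcases ih with ⟨l, hl, hlen⟩ | ⟨H, hH, h⟩
    · -- the union of the certificates
      let un : List (Finset V × (V → Bool)) → Finset V :=
        fun l => l.foldr (fun p s => p.1 ∪ s) ∅
      let U : Finset V := un l
      have hU : ∀ (l : List (Finset V × (V → Bool))) (i : V),
          i ∈ un l ↔ ∃ p ∈ l, i ∈ p.1 := by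
        intro l i
        induction l with
        | nil => simp [un]
        | cons p l ih =>
          have : un (p :: l) = p.1 ∪ un l := rfl
          rw [this, Finset.mem_union, ih]
          simp
      have hcard : ∀ l : List (Finset V × (V → Bool)), (∀ p ∈ l, p.1.card ≤ t + 1) →
          (un l).card ≤ (t + 1) * l.length := by
        intro l
        induction l with
        | nil => simp [un]
        | cons p l ih =>
          intro h
          have h1 := ih fun q hq => h q (List.mem_cons_of_mem _ hq)
          have h2 := h p List.mem_cons_self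
          have h3 := Finset.card_union_le p.1 (un l)
          have h4 : un (p :: l) = p.1 ∪ un l := rfl
          rw [h4, List.length_cons]
          calc _ ≤ _ := h3
            _ ≤ (t + 1) + (t + 1) * l.length := Nat.add_le_add h2 h1
            _ = _ := by ring
      by_cases hex : ∃ p : Finset V × (V → Bool), Disjoint p.1 U ∧ p.1.card ≤ t + 1 ∧
          ∀ τ : V → Bool, (∀ i ∈ p.1, τ i = p.2 i) → f τ = true
      · obtain ⟨p, hp1, hp2, hp3⟩ := hex
        refine Or.inl ⟨p :: l, ⟨List.Pairwise.cons ?_ hl.1, ?_⟩, by simp [hlen]⟩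
        · intro q hq
          rw [Finset.disjoint_left] at hp1 ⊢
          intro i hi hiq
          exact hp1 hi ((hU l i).2 ⟨q, hq, hiq⟩)
        · intro q hq
          rcases List.mem_cons.1 hq with h | h
          · subst h
            exact ⟨hp2, hp3⟩
          · exact hl.2 q h
      · push Not at hex
        refine Or.inr ⟨U, ?_, ?_⟩
        · have := hcard l fun p hp => (hl.2 p hp).1
          rw [hlen] at this
          exact this.trans (Nat.mul_le_mul_left _ (Nat.le_succ k))
        · intro a τ hτ
          obtain ⟨J, hJ1, hJ2⟩ := hf _ hτ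
          have hnd : ¬ Disjoint J U := by
            intro hd
            obtain ⟨τ', h1, h2⟩ := hex (J, mix U a τ) hd hJ1
            exact h2 (hJ2 τ' h1)
          refine ⟨J \ U, ?_, ?_⟩
          · rw [Finset.not_disjoint_iff] at hnd
            obtain ⟨i, hi1, hi2⟩ := hnd
            have h1 : J \ U ⊂ J := by
              rw [Finset.ssubset_iff_of_subset Finset.sdiff_subset]
              exact ⟨i, hi1, by simp [hi2]⟩
            have := Finset.card_lt_card h1
            omega
          · intro τ' hτ'
            apply hJ2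
            intro i hi
            unfold mix
            by_cases h : i ∈ U
            · simp [h]
            · simp only [h, if_false]
              exact hτ' i (Finset.mem_sdiff.2 ⟨hi, h⟩)
    · exact Or.inr ⟨H, hH.trans (Nat.mul_le_mul_left _ (Nat.le_succ k)), h⟩

end dichotomy

section many

variable {V : Type} [DecidableEq V] [Fintype V]

/-- Some certificate is satisfied with high probability. -/
theorem pr_many {N : ℕ} (hN : 2 ≤ N) (j : Fin N) {t : ℕ} {f : BF V}
    (l : List (Finset V × (V → Bool))) (hl : CertList t f l) :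
    pr (fun ω : V → Fin N × Bool => ∀ p ∈ l, ¬ ∀ i ∈ p.1, (ω i).1 ≠ j ∧ (ω i).2 = p.2 i) ≤
      (1 - (1 / 4 : ℝ) ^ t) ^ l.length := by
  have hNne : Nonempty (Fin N × Bool) := ⟨(j, true)⟩
  have h4 : (0 : ℝ) ≤ 1 - (1 / 4) ^ t := by
    have : ((1 : ℝ) / 4) ^ t ≤ 1 := pow_le_one₀ (by norm_num) (by norm_num)
    linarith
  induction l with
  | nil => simpa using pr_le_one _
  | cons p l ih =>
    have hl' : CertList t f l :=
      ⟨(List.pairwise_cons.1 hl.1).2, fun q hq => hl.2 q (List.mem_cons_of_mem _ hq)⟩
    have hdis := (List.pairwise_cons.1 hl.1).1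
    have h1 : pr (fun ω : V → Fin N × Bool =>
        ∀ q ∈ p :: l, ¬ ∀ i ∈ q.1, (ω i).1 ≠ j ∧ (ω i).2 = q.2 i) =
        pr (fun ω : V → Fin N × Bool => (¬ ∀ i ∈ p.1, (ω i).1 ≠ j ∧ (ω i).2 = p.2 i) ∧
          ∀ q ∈ l, ¬ ∀ i ∈ q.1, (ω i).1 ≠ j ∧ (ω i).2 = q.2 i) :=
      pr_congr fun ω => by simp only [List.forall_mem_cons]
    rw [h1, pr_and_of_disjoint p.1, List.length_cons, pow_succ, mul_comm]
    · apply mul_le_mul (ih hl') _ (pr_nonneg _) (pow_nonneg h4 _)
      rw [pr_not]
      have h2 : (1 / 4 : ℝ) ^ t ≤ pr (fun ω : V → Fin N × Bool =>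
          ∀ i ∈ p.1, (ω i).1 ≠ j ∧ (ω i).2 = p.2 i) := by
        rw [pr_forall_mem p.1 fun i (x : Fin N × Bool) => x.1 ≠ j ∧ x.2 = p.2 i]
        have h3 : ∀ i ∈ p.1, (1 / 4 : ℝ) ≤
            pr fun x : Fin N × Bool => x.1 ≠ j ∧ x.2 = p.2 i := by
          intro i _
          rw [pr_prod fun (a : Fin N) (b : Bool) => a ≠ j ∧ b = p.2 i]
          have h5 : ∀ a : Fin N, (if a ≠ j then (1 / 2 : ℝ) else 0) ≤
              pr fun b : Bool => a ≠ j ∧ b = p.2 i := by
            intro a
            by_cases ha : a = j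
            · simp only [ha, ne_eq, not_true_eq_false, if_false]
              exact pr_nonneg _
            · unfold pr av
              cases p.2 i <;> simp [ha]
          refine le_trans ?_ (av_mono h5)
          unfold av
          rw [← Finset.sum_filter, Finset.sum_const, Finset.filter_ne', Finset.card_erase_of_mem
            (Finset.mem_univ _), Finset.card_univ, Fintype.card_fin, nsmul_eq_mul,
            Nat.cast_sub (by omega)]
          have hN' : (2 : ℝ) ≤ N := by exact_mod_cast hN
          rw [le_div_iff₀ (by linarith)]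
          push_cast
          linarith
        calc (1 / 4 : ℝ) ^ t ≤ (1 / 4 : ℝ) ^ p.1.card :=
              pow_le_pow_of_le_one (by norm_num) (by norm_num) (hl.2 p List.mem_cons_self).1
          _ = ∏ _i ∈ p.1, (1 / 4 : ℝ) := by rw [Finset.prod_const]
          _ ≤ _ := Finset.prod_le_prod (fun _ _ => by norm_num) h3
      linarith
    · intro a b hab
      refine not_congr (forall₂_congr fun i hi => ?_)
      rw [hab i hi]
    · intro a b hab
      refine forall₂_congr fun q hq => not_congr (forall₂_congr fun i hi => ?_)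
      rw [hab i]
      intro hi'
      exact Finset.disjoint_left.1 (hdis q hq) hi' hi

/-- The number of alive coordinates in a small set. -/
theorem pr_alive {N : ℕ} (j : Fin N) (H : Finset V) (r : ℕ) :
    pr (fun ω : V → Fin N × Bool => r < (H.filter fun i => (ω i).1 = j).card) ≤
      ((H.card : ℝ) / N) ^ (r + 1) := by
  have hNne : Nonempty (Fin N × Bool) := ⟨(j, true)⟩
  have hN : 0 < N := Fin.pos j
  have hN' : (0 : ℝ) < N := by exact_mod_cast hN
  have h1 : ∀ ω : V → Fin N × Bool, r < (H.filter fun i => (ω i).1 = j).card →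
      ∃ S ∈ H.powersetCard (r + 1), ∀ i ∈ S, (ω i).1 = j := by
    intro ω hω
    obtain ⟨S, hS1, hS2⟩ := Finset.exists_subset_card_eq (Nat.succ_le_of_lt hω)
    refine ⟨S, Finset.mem_powersetCard.2 ⟨hS1.trans (Finset.filter_subset _ _), hS2⟩,
      fun i hi => (Finset.mem_filter.1 (hS1 hi)).2⟩
  refine (pr_mono h1).trans ((pr_exists_le _ _).trans ?_)
  have h2 : ∀ S ∈ H.powersetCard (r + 1),
      pr (fun ω : V → Fin N × Bool => ∀ i ∈ S, (ω i).1 = j) ≤ (1 / (N : ℝ)) ^ (r + 1) := by
    intro S hS
    rw [pr_forall_mem S fun _ (x : Fin N × Bool) => x.1 = j]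
    have h3 : (pr fun x : Fin N × Bool => x.1 = j) = 1 / (N : ℝ) := by
      rw [pr_prod fun (a : Fin N) (_ : Bool) => a = j]
      have h4 : ∀ a : Fin N, (pr fun _ : Bool => a = j) = if a = j then (1 : ℝ) else 0 := by
        intro a
        by_cases ha : a = j
        · have h5 : (pr fun _ : Bool => a = j) = 1 := by
            unfold pr
            simp only [ha, if_true]
            exact av_const 1
          rw [h5, if_pos ha]
        · rw [if_neg ha]
          exact pr_eq_zero fun _ => ha
      rw [av_congr h4]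
      unfold av
      simp
    rw [Finset.prod_const, h3, (Finset.mem_powersetCard.1 hS).2]
  refine (Finset.sum_le_sum h2).trans ?_
  rw [Finset.sum_const, Finset.card_powersetCard, nsmul_eq_mul, div_pow, div_pow, one_pow,
    mul_one_div]
  apply div_le_div_of_nonneg_right _ (by positivity)
  exact_mod_cast Nat.choose_le_pow _ _

omit [Fintype V] in
/-- If all sub-restrictions are juntas and few coordinates of `H` are alive, then the restriction
is a junta. -/
theorem isJunta_union {N : ℕ} (j : Fin N) (H : Finset V) (r s : ℕ) (f : BF V)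
    (ω : V → Fin N × Bool) (hr : (H.filter fun i => (ω i).1 = j).card ≤ r)
    (hs : ∀ B ∈ H.powerset, IsJunta s (restr ω j fun τ => f (mix H (fun i => decide (i ∈ B)) τ))) :
    IsJunta (r + 2 ^ r * s) (restr ω j f) := by
  classical
  set A := H.filter fun i => (ω i).1 = j with hA
  -- the assignment of `H` for a subset of the alive set
  let asg : Finset V → Finset V := fun B =>
    H.filter fun i => if (ω i).1 = j then i ∈ B else (ω i).2 = true
  have hasg : ∀ B, asg B ∈ H.powerset := fun B => Finset.mem_powerset.2 (Finset.filter_subset _ _)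
  choose J hJ1 hJ2 using fun B : Finset V => hs (asg B) (hasg B)
  refine ⟨A ∪ A.powerset.biUnion J, ?_, ?_⟩
  · calc (A ∪ A.powerset.biUnion J).card ≤ A.card + (A.powerset.biUnion J).card :=
        Finset.card_union_le _ _
      _ ≤ A.card + A.powerset.card * s :=
        Nat.add_le_add_left (Finset.card_biUnion_le_card_mul _ _ _ fun B _ => hJ1 B) _
      _ ≤ r + 2 ^ r * s := by
        rw [Finset.card_powerset]
        gcongr
        norm_num
  · intro σ τ h
    have key : ∀ σ : V → Bool, restr ω j f σ = restr ω j (fun τ => f (mix H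
        (fun i => decide (i ∈ asg (A.filter fun i => σ i = true))) τ)) σ := by
      intro σ
      unfold restr
      congr 1
      funext i
      unfold mix
      by_cases hi : i ∈ H
      · simp only [hi, if_true, asg, Finset.mem_filter, true_and, A]
        by_cases hj : (ω i).1 = j
        · simp [hj]
        · simp [hj]
      · simp [hi]
    have hB : (A.filter fun i => σ i = true) = A.filter fun i => τ i = true :=
      Finset.filter_congr fun i hi => by rw [h i (Finset.mem_union_left _ hi)]
    rw [key σ, key τ, hB]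
    apply hJ2
    intro i hi
    exact h i (Finset.mem_union_right _ (Finset.mem_biUnion.2
      ⟨_, Finset.mem_powerset.2 (Finset.filter_subset _ _), hi⟩))

end many

end Pool.Agent.H58.OVAC
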