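import Pool.Agent.H58.OVAC.Fss

/-! The restriction lemma: after one random restriction a function with short certificates is a
junta, except with polynomially small probability. -/

set_option autoImplicit false
set_option maxHeartbeats 4000000

namespace Pool.Agent.H58.OVAC

theorem one_sub_inv_pow_le (M : ℕ) (hM : 1 ≤ M) : (1 - 1 / (M : ℝ)) ^ M ≤ 1 / 2 := by
  have hM' : (1 : ℝ) ≤ M := by exact_mod_cast hM
  have h2 : 1 - 1 / (M : ℝ) ≤ Real.exp (-(1 / M)) := by
    have := Real.add_one_le_exp (-(1 / (M : ℝ)))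
    linarith
  have h0 : 0 ≤ 1 - 1 / (M : ℝ) := by
    rw [sub_nonneg, div_le_one (by linarith)]
    exact hM'
  calc (1 - 1 / (M : ℝ)) ^ M ≤ Real.exp (-(1 / M)) ^ M := pow_le_pow_left₀ h0 h2 M
    _ = Real.exp (-1) := by
        rw [← Real.exp_nat_mul]
        congr 1
        field_simp
    _ ≤ 1 / 2 := by
        rw [Real.exp_neg, one_div]
        apply inv_anti₀ (by norm_num)
        have := Real.exp_one_gt_d9
        linarith

theorem log_small (E : ℕ) : ∃ N₀ : ℕ, ∀ N ≥ N₀, (E * (Nat.log 2 N + 1)) ^ 2 ≤ N := by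
  have h1 := tendsto_pow_const_div_const_pow_of_one_lt 2 (show (1 : ℝ) < 2 by norm_num)
  have h2 : ∀ᶠ l : ℕ in Filter.atTop, (l : ℝ) ^ 2 / 2 ^ l < 1 / (2 * (E ^ 2 + 1)) :=
    h1.eventually (gt_mem_nhds (by positivity))
  obtain ⟨L, hL⟩ := Filter.eventually_atTop.1 h2
  refine ⟨2 ^ L, fun N hN => ?_⟩
  have hN0 : N ≠ 0 := by
    have : 0 < 2 ^ L := by positivity
    omega
  have h3 : L ≤ Nat.log 2 N + 1 := by
    have := Nat.le_log_of_pow_le (b := 2) (by norm_num) hN
    omega
  have h4 := hL _ h3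
  have h5 : 2 ^ Nat.log 2 N ≤ N := Nat.pow_log_le_self 2 hN0
  rw [div_lt_div_iff₀ (by positivity) (by positivity), one_mul] at h4
  have h6 : ((2 : ℝ) ^ (Nat.log 2 N + 1)) ≤ 2 * N := by
    rw [pow_succ, mul_comm]
    have : ((2 ^ Nat.log 2 N : ℕ) : ℝ) ≤ N := by exact_mod_cast h5
    push_cast at this
    linarith
  have h7 : ((E * (Nat.log 2 N + 1) : ℕ) : ℝ) ^ 2 ≤ N := by
    push_cast at h4 ⊢
    nlinarith [sq_nonneg ((Nat.log 2 N : ℝ) + 1)]
  exact_mod_cast h7

theorem fss (t : ℕ) : ∀ K : ℕ, ∃ t' N₀ : ℕ, ∀ N ≥ N₀, ∀ (V : Type) [Fintype V] [DecidableEq V]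
    (j : Fin N) (f : BF V), Cert t f →
    pr (fun ω : V → Fin N × Bool => ¬ IsJunta t' (restr ω j f)) ≤ 1 / (N : ℝ) ^ K := by
  induction t with
  | zero =>
    intro K
    refine ⟨0, 0, fun N _ V _ _ j f hf => ?_⟩
    rw [pr_eq_zero]
    · positivity
    · intro ω
      rw [not_not]
      exact (isJunta_of_cert_zero hf 0).restr ω j
  | succ t ih =>
    intro K
    obtain ⟨M, hM⟩ : ∃ M : ℕ, M = 4 ^ (t + 1) := ⟨_, rfl⟩
    have hM1 : 1 ≤ M := by rw [hM]; exact Nat.one_le_pow _ _ (by norm_num)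
    obtain ⟨E, hE⟩ : ∃ E : ℕ, E = (t + 1) * (M * (K + 1)) := ⟨_, rfl⟩
    obtain ⟨s, N₁, hs⟩ := ih (K + 1 + 2 * E)
    obtain ⟨N₂, hN₂⟩ := log_small E
    refine ⟨(2 * K + 1) + 2 ^ (2 * K + 1) * s, max 2 (max N₁ N₂), ?_⟩
    intro N hN V _ _ j f hf
    have hN2 : 2 ≤ N := (le_max_left _ _).trans hN
    have hNN1 : N₁ ≤ N := (le_max_left _ _).trans ((le_max_right _ _).trans hN)
    have hNN2 : N₂ ≤ N := (le_max_right _ _).trans ((le_max_right _ _).trans hN)
    have hN' : (2 : ℝ) ≤ N := by exact_mod_cast hN2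
    have hN0 : (0 : ℝ) < N := by linarith
    have hN1 : (1 : ℝ) ≤ N := by linarith
    obtain ⟨l, hl⟩ : ∃ l : ℕ, l = Nat.log 2 N + 1 := ⟨_, rfl⟩
    have hsmall : ((E * l : ℕ) : ℝ) ^ 2 ≤ N := by
      have := hN₂ N hNN2
      rw [← hl] at this
      exact_mod_cast this
    have hl1 : (N : ℝ) ≤ 2 ^ l := by
      have := Nat.lt_pow_succ_log_self (b := 2) (by norm_num) N
      rw [hl]
      exact_mod_cast this.le
    have hl2 : (2 : ℝ) ^ l ≤ N ^ 2 := by
      have h5 : 2 ^ Nat.log 2 N ≤ N := Nat.pow_log_le_self 2 (by omega)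
      have h6 : ((2 ^ Nat.log 2 N : ℕ) : ℝ) ≤ N := by exact_mod_cast h5
      rw [hl, pow_succ]
      push_cast at h6
      nlinarith
    have hfin : 2 / (N : ℝ) ^ (K + 1) ≤ 1 / (N : ℝ) ^ K := by
      rw [div_le_div_iff₀ (by positivity) (by positivity), pow_succ]
      have : (0 : ℝ) < N ^ K := by positivity
      nlinarith
    rcases dichotomy hf (M * (K + 1) * l) with ⟨L, hL, hlen⟩ | ⟨H, hH, hcert⟩
    · -- many disjoint certificates
      have h1 : pr (fun ω : V → Fin N × Bool =>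
          ¬ IsJunta ((2 * K + 1) + 2 ^ (2 * K + 1) * s) (restr ω j f)) ≤
          pr (fun ω : V → Fin N × Bool =>
            ∀ p ∈ L, ¬ ∀ i ∈ p.1, (ω i).1 ≠ j ∧ (ω i).2 = p.2 i) := by
        apply pr_mono
        intro ω hω p hp hsat
        apply hω
        have h2 : ∀ τ, restr ω j f τ = true := by
          intro τ
          apply (hL.2 p hp).2
          intro i hi
          rw [if_neg (hsat i hi).1]
          exact (hsat i hi).2
        exact isJunta_const _ _ fun σ τ => by rw [h2, h2]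
      refine h1.trans ((pr_many hN2 j L hL).trans ?_)
      rw [hlen]
      have h3 : ((1 : ℝ) / 4) ^ (t + 1) = 1 / (M : ℝ) := by
        rw [hM, one_div_pow]
        push_cast
        rfl
      have h0 : 0 ≤ 1 - 1 / (M : ℝ) := by
        have hM' : (1 : ℝ) ≤ M := by exact_mod_cast hM1
        rw [sub_nonneg, div_le_one (by linarith)]
        exact hM'
      rw [h3, mul_assoc, pow_mul]
      calc ((1 - 1 / (M : ℝ)) ^ M) ^ ((K + 1) * l) ≤ (1 / 2) ^ ((K + 1) * l) :=
            pow_le_pow_left₀ (pow_nonneg h0 _) (one_sub_inv_pow_le M hM1) _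
        _ = 1 / ((2 : ℝ) ^ l) ^ (K + 1) := by
            rw [one_div_pow, mul_comm, pow_mul]
        _ ≤ 1 / (N : ℝ) ^ (K + 1) := by
            apply one_div_le_one_div_of_le (by positivity)
            exact pow_le_pow_left₀ hN0.le hl1 _
        _ ≤ 1 / (N : ℝ) ^ K := by
            apply one_div_le_one_div_of_le (by positivity)
            exact pow_le_pow_right₀ hN1 (Nat.le_succ K)
    · -- a small hitting set
      have hH' : H.card ≤ E * l := by
        rw [hE]
        calc H.card ≤ _ := hH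
          _ = _ := by ring
      have h1 : pr (fun ω : V → Fin N × Bool =>
          ¬ IsJunta ((2 * K + 1) + 2 ^ (2 * K + 1) * s) (restr ω j f)) ≤
          pr (fun ω : V → Fin N × Bool =>
            (2 * K + 1 < (H.filter fun i => (ω i).1 = j).card) ∨
            ∃ B ∈ H.powerset, ¬ IsJunta s
              (restr ω j fun τ => f (mix H (fun i => decide (i ∈ B)) τ))) := by
        apply pr_mono
        intro ω hω
        by_contra hcon
        push Not at hcon
        exact hω (isJunta_union j H (2 * K + 1) s f ω hcon.1 hcon.2)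
      refine h1.trans ((pr_or_le _ _).trans ?_)
      have h2 := pr_alive (N := N) j H (2 * K + 1)
      have h3 : ((H.card : ℝ) / N) ^ (2 * K + 1 + 1) ≤ 1 / (N : ℝ) ^ (K + 1) := by
        have h4 : 2 * K + 1 + 1 = 2 * (K + 1) := by ring
        rw [h4, pow_mul, ← one_div_pow]
        apply pow_le_pow_left₀ (by positivity)
        rw [div_pow, div_le_div_iff₀ (by positivity) hN0, one_mul]
        have h5 : (H.card : ℝ) ≤ ((E * l : ℕ) : ℝ) := by exact_mod_cast hH'
        have h6 : (H.card : ℝ) ^ 2 ≤ N :=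
          (pow_le_pow_left₀ (by positivity) h5 2).trans hsmall
        nlinarith
      have h7 : pr (fun ω : V → Fin N × Bool => ∃ B ∈ H.powerset, ¬ IsJunta s
          (restr ω j fun τ => f (mix H (fun i => decide (i ∈ B)) τ))) ≤
          1 / (N : ℝ) ^ (K + 1) := by
        refine (pr_exists_le _ _).trans ?_
        have h8 : ∀ B ∈ H.powerset, pr (fun ω : V → Fin N × Bool => ¬ IsJunta s
            (restr ω j fun τ => f (mix H (fun i => decide (i ∈ B)) τ))) ≤
            1 / (N : ℝ) ^ (K + 1 + 2 * E) :=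
          fun B _ => hs N hNN1 V j _ (hcert _)
        refine (Finset.sum_le_sum h8).trans ?_
        rw [Finset.sum_const, Finset.card_powerset, nsmul_eq_mul]
        push_cast
        have h9 : (2 : ℝ) ^ H.card ≤ N ^ (2 * E) := by
          calc (2 : ℝ) ^ H.card ≤ 2 ^ (E * l) := pow_le_pow_right₀ (by norm_num) hH'
            _ = (2 ^ l) ^ E := by rw [mul_comm, pow_mul]
            _ ≤ (N ^ 2) ^ E := pow_le_pow_left₀ (by positivity) hl2 E
            _ = N ^ (2 * E) := by rw [pow_mul]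
        rw [mul_one_div, div_le_div_iff₀ (by positivity) (by positivity), one_mul,
          pow_add (N : ℝ) (K + 1) (2 * E), mul_comm]
        exact mul_le_mul_of_nonneg_left h9 (by positivity)
      calc _ ≤ 1 / (N : ℝ) ^ (K + 1) + 1 / (N : ℝ) ^ (K + 1) := add_le_add (h2.trans h3) h7
        _ = 2 / (N : ℝ) ^ (K + 1) := by ring
        _ ≤ _ := hfin

end Pool.Agent.H58.OVAC
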