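import Pool.Agent.H58.OVAC.Sens

/-! From Boolean inputs to inputs over a large alphabet: the total influence of the gates of a
constant depth circuit at a random input. -/

set_option autoImplicit false
set_option maxHeartbeats 4000000

namespace Pool.Agent.H58.OVAC

/-- The function depends on at most one position. -/
def DepOne {V X : Type} (u : (V → X) → Bool) : Prop :=
  ∃ P : Finset V, P.card ≤ 1 ∧ ∀ x y : V → X, (∀ p ∈ P, x p = y p) → u x = u y

/-- Families of functions computed by circuits with at most `h` levels of gates over functions of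
one position. -/
structure RowFam {V X ι : Type} (h : ℕ) (U : ι → (V → X) → Bool) (lev : ι → ℕ) : Prop where
  base : ∀ i, lev i = 0 → DepOne (U i)
  or : ∀ i, lev i ≠ 0 → ∃ C : Set ((V → X) → Bool),
    (∀ c ∈ C, DepOne c ∨ ∃ i', lev i' < lev i ∧ (c = U i' ∨ c = fun x => !U i' x)) ∧
    ∀ x, U i x = true ↔ ∃ c ∈ C, c x = true
  le : ∀ i, lev i ≤ h

/-- The restriction of `u` to the menu given by `y` and `y'`. -/
def men {V X : Type} (y y' : V → X) (u : (V → X) → Bool) : BF V :=
  fun σ => u fun p => if σ p then y' p else y p

theorem DepOne.men {V X : Type} {u : (V → X) → Bool} (hu : DepOne u) (y y' : V → X) :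
    IsJunta 1 (men y y' u) := by
  obtain ⟨P, h1, h2⟩ := hu
  refine ⟨P, h1, fun σ τ h => h2 _ _ fun p hp => ?_⟩
  simp only [h p hp]

theorem RowFam.men {V X ι : Type} {h : ℕ} {U : ι → (V → X) → Bool} {lev : ι → ℕ}
    (hU : RowFam h U lev) (y y' : V → X) : Fam 1 h (fun i => OVAC.men y y' (U i)) lev := by
  refine ⟨fun i hi => (hU.base i hi).men y y', ?_, hU.le⟩
  intro i hi
  obtain ⟨C, hC1, hC2⟩ := hU.or i hi
  refine ⟨OVAC.men y y' '' C, ?_, ?_⟩
  · rintro _ ⟨c, hc, rfl⟩
    rcases hC1 c hc with h | ⟨i', h1, h2⟩
    · exact Or.inl (h.men y y')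
    · refine Or.inr ⟨i', h1, ?_⟩
      rcases h2 with h2 | h2
      · exact Or.inl (by rw [h2])
      · exact Or.inr (by rw [h2]; rfl)
  · intro σ
    constructor
    · intro h
      obtain ⟨c, hc, h1⟩ := (hC2 _).1 h
      exact ⟨_, ⟨c, hc, rfl⟩, h1⟩
    · rintro ⟨_, ⟨c, hc, rfl⟩, h1⟩
      exact (hC2 _).2 ⟨c, hc, h1⟩

section

variable {V X : Type} [DecidableEq V] [Fintype V] [Fintype X]

/-- The total influence of the positions on `u` at `y`. -/
noncomputable def infl (u : (V → X) → Bool) (y : V → X) : ℝ :=
  ∑ p, pr fun α : X => u (Function.update y p α) ≠ u y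

/-- The marginal distribution at one position. -/
theorem pr_coord [Nonempty X] (p : V) (Q : X → Prop) :
    pr (fun ω : V → X => Q (ω p)) = pr Q := by
  have h := pr_forall_mem (V := V) {p} fun _ => Q
  simpa using h

theorem infl_eq [Nonempty X] (u : (V → X) → Bool) (y : V → X) :
    infl u y = av fun y' : V → X => (sens (men y y' u) (fun _ => false) : ℝ) := by
  classical
  unfold infl sens
  have h1 : ∀ y' : V → X, ((Finset.univ.filter fun i =>
      men y y' u (flip (fun _ => false) i) ≠ men y y' u fun _ => false).card : ℝ) =
      ∑ p, if u (Function.update y p (y' p)) ≠ u y then (1 : ℝ) else 0 := by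
    intro y'
    rw [Finset.card_filter]
    push_cast
    apply Finset.sum_congr rfl
    intro p _
    have h2 : men y y' u (fun _ => false) = u y := by
      unfold men
      congr 1
    have h3 : men y y' u (flip (fun _ => false) p) = u (Function.update y p (y' p)) := by
      unfold men
      congr 1
      funext k
      by_cases hk : k = p
      · subst hk
        simp [flip]
      · simp [flip, hk]
    rw [h2, h3]
  rw [av_congr h1, av_sum]
  apply Finset.sum_congr rfl
  intro p _
  rw [← pr_coord p fun α : X => u (Function.update y p α) ≠ u y]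
  unfold pr
  exact av_congr fun ω => by congr

theorem sens_mix (u : (V → X) → Bool) (σ : V → Bool) (a b : V → X) :
    sens (men (mix (Finset.univ.filter fun p => σ p = true) a b)
      (mix (Finset.univ.filter fun p => σ p = true) b a) u) (fun _ => false) =
    sens (men b a u) σ := by
  unfold sens
  congr 1
  apply Finset.filter_congr
  intro p _
  have h1 : men (mix (Finset.univ.filter fun p => σ p = true) a b)
      (mix (Finset.univ.filter fun p => σ p = true) b a) u (fun _ => false) = men b a u σ := by
    unfold men mix
    congr 1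
    funext k
    cases hk : σ k <;> simp [hk]
  have h2 : men (mix (Finset.univ.filter fun p => σ p = true) a b)
      (mix (Finset.univ.filter fun p => σ p = true) b a) u (flip (fun _ => false) p) =
      men b a u (flip σ p) := by
    unfold men mix
    congr 1
    funext k
    by_cases hkp : k = p
    · subst hkp
      cases hk : σ k <;> simp [flip, hk]
    · cases hk : σ k <;> simp [flip, hk, hkp]
  rw [h1, h2]

end

theorem infl_tail (h K : ℕ) : ∃ t' N₀ : ℕ, ∀ N ≥ N₀, ∀ (V X : Type) [Fintype V]
    [DecidableEq V] [Fintype X] [Nonempty X] (ι : Type) [Fintype ι] (U : ι → (V → X) → Bool)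
    (lev : ι → ℕ), RowFam h U lev →
    ∀ G : ℕ, (Finset.univ.filter fun i => lev i ≠ 0).card ≤ G → ∀ i,
    pr (fun y : V → X => ((t' * N ^ h : ℕ) : ℝ) + 1 < infl (U i) y) ≤
      (Fintype.card V : ℝ) * ((G : ℝ) / (N : ℝ) ^ K) := by
  obtain ⟨t', N₀, ht'⟩ := sens_tail h 1 K
  refine ⟨t', N₀, ?_⟩
  intro N hN V X _ _ _ _ ι _ U lev hU G hG i
  classical
  obtain ⟨S, hS⟩ : ∃ S : ℕ, S = t' * N ^ h := ⟨_, rfl⟩
  rw [← hS]
  have h1 : (av fun a : V → X => pr fun b : V → X =>
      S < sens (men a b (U i)) (fun _ => false)) ≤ (G : ℝ) / (N : ℝ) ^ K := by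
    have h2 : ∀ σ : V → Bool, (av fun a : V → X => pr fun b : V → X =>
        S < sens (men a b (U i)) (fun _ => false)) =
        av fun a : V → X => pr fun b : V → X => S < sens (men b a (U i)) σ := by
      intro σ
      have h3 := av_mix₂ (Finset.univ.filter fun p => σ p = true)
        (fun a b : V → X => if S < sens (men a b (U i)) (fun _ => false) then (1 : ℝ) else 0)
      unfold pr
      refine (Eq.trans ?_ h3.symm).trans ?_
      · exact av_congr fun a => av_congr fun b => by congr
      · refine av_congr fun a => av_congr fun b => ?_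
        rw [sens_mix]
        congr
    have h4 : (av fun a : V → X => pr fun b : V → X =>
        S < sens (men a b (U i)) (fun _ => false)) =
        av fun a : V → X => av fun b : V → X => pr fun σ : V → Bool =>
          S < sens (men b a (U i)) σ := by
      calc _ = av fun _ : V → Bool => (av fun a : V → X => pr fun b : V → X =>
              S < sens (men a b (U i)) (fun _ => false)) := (av_const _).symm
        _ = av fun σ : V → Bool => av fun a : V → X => pr fun b : V → X =>
              S < sens (men b a (U i)) σ := av_congr h2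
        _ = _ := by
            rw [av_comm]
            refine av_congr fun a => ?_
            unfold pr
            rw [av_comm]
    rw [h4]
    refine av_le fun a => av_le fun b => ?_
    rw [hS]
    exact ht' N hN V ι _ lev (hU.men b a) G hG i
  -- Markov
  have h5 : ∀ y : V → X, (S : ℝ) + 1 < infl (U i) y →
      1 < (Fintype.card V : ℝ) * pr fun b : V → X =>
        S < sens (men y b (U i)) (fun _ => false) := by
    intro y hy
    rw [infl_eq] at hy
    have h6 : ∀ b : V → X, (sens (men y b (U i)) (fun _ => false) : ℝ) ≤
        S + Fintype.card V * (if S < sens (men y b (U i)) (fun _ => false) then (1 : ℝ) else 0) := by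
      intro b
      have h7 : (sens (men y b (U i)) (fun _ => false) : ℝ) ≤ Fintype.card V := by
        exact_mod_cast Finset.card_le_univ _
      by_cases h8 : S < sens (men y b (U i)) (fun _ => false)
      · rw [if_pos h8, mul_one]
        have : (0 : ℝ) ≤ S := Nat.cast_nonneg S
        linarith
      · rw [if_neg h8, mul_zero, add_zero]
        exact_mod_cast not_lt.1 h8
    have h9 := av_mono h6
    rw [av_add, av_mul_left] at h9
    have h10 : (av fun _ : V → X => (S : ℝ)) = S := av_const _
    rw [h10] at h9
    have h11 : (av fun b : V → X => if S < sens (men y b (U i)) (fun _ => false)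
        then (1 : ℝ) else 0) = pr fun b : V → X => S < sens (men y b (U i)) (fun _ => false) := by
      unfold pr
      exact av_congr fun ω => by congr
    rw [h11] at h9
    linarith
  calc pr (fun y : V → X => (S : ℝ) + 1 < infl (U i) y)
      ≤ av fun y : V → X => (Fintype.card V : ℝ) * pr fun b : V → X =>
        S < sens (men y b (U i)) (fun _ => false) := by
        unfold pr
        refine av_mono fun y => ?_
        by_cases hy : (S : ℝ) + 1 < infl (U i) y
        · rw [if_pos hy]
          exact (h5 y hy).le
        · rw [if_neg hy]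
          exact mul_nonneg (Nat.cast_nonneg _) (pr_nonneg _)
    _ = (Fintype.card V : ℝ) * av fun y : V → X => pr fun b : V → X =>
        S < sens (men y b (U i)) (fun _ => false) := av_mul_left _ _
    _ ≤ _ := mul_le_mul_of_nonneg_left h1 (Nat.cast_nonneg _)

end Pool.Agent.H58.OVAC
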