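import Pool.Agent.H58.OVAC.FssMain

/-! The sensitivity of constant depth circuits at random points. -/

set_option autoImplicit false
set_option maxHeartbeats 4000000

namespace Pool.Agent.H58.OVAC

/-- Flip one coordinate. -/
def flip {V : Type} [DecidableEq V] (σ : V → Bool) (i : V) : V → Bool :=
  Function.update σ i (!σ i)

/-- The sensitivity of `f` at `σ`. -/
def sens {V : Type} [DecidableEq V] [Fintype V] (f : BF V) (σ : V → Bool) : ℕ :=
  (Finset.univ.filter fun i => f (flip σ i) ≠ f σ).card

/-- Families of functions computed by circuits with at most `h` levels over juntas. -/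
structure Fam {V ι : Type} (t h : ℕ) (F : ι → BF V) (lev : ι → ℕ) : Prop where
  base : ∀ i, lev i = 0 → IsJunta t (F i)
  or : ∀ i, lev i ≠ 0 → ∃ C : Set (BF V),
    (∀ c ∈ C, IsJunta t c ∨ ∃ i', lev i' < lev i ∧ (c = F i' ∨ c = fun σ => !F i' σ)) ∧
    ∀ σ, F i σ = true ↔ ∃ c ∈ C, c σ = true
  le : ∀ i, lev i ≤ h

section

variable {V : Type} [DecidableEq V] [Fintype V]

theorem sens_le_of_isJunta {t : ℕ} {f : BF V} (hf : IsJunta t f) (σ : V → Bool) :
    sens f σ ≤ t := by
  obtain ⟨J, h1, h2⟩ := hf
  refine (Finset.card_le_card ?_).trans h1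
  intro i hi
  by_contra hiJ
  apply (Finset.mem_filter.1 hi).2
  apply h2
  intro k hk
  have : k ≠ i := by rintro rfl; exact hiJ hk
  simp [flip, this]

theorem alive_le_sens {N : ℕ} (ω : V → Fin N × Bool) (j : Fin N) (f : BF V) (σ : V → Bool) :
    (Finset.univ.filter fun i => (ω i).1 = j ∧
      f (flip (fun i => if (ω i).1 = j then σ i else (ω i).2) i) ≠
        f (fun i => if (ω i).1 = j then σ i else (ω i).2)).card ≤ sens (restr ω j f) σ := by
  apply Finset.card_le_card
  intro i hi
  obtain ⟨h1, h2⟩ := (Finset.mem_filter.1 hi).2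
  refine Finset.mem_filter.2 ⟨Finset.mem_univ _, ?_⟩
  have h3 : restr ω j f (flip σ i) =
      f (flip (fun i => if (ω i).1 = j then σ i else (ω i).2) i) := by
    unfold restr
    congr 1
    funext k
    by_cases hk : k = i
    · subst hk
      simp [flip, h1]
    · simp [flip, hk]
  rw [h3]
  exact h2

/-- Restriction of a family. -/
theorem Fam.restr {ι : Type} {t t' h : ℕ} {F : ι → BF V} {lev : ι → ℕ}
    (hF : Fam t (h + 1) F lev) {N : ℕ} (ω : V → Fin N × Bool) (j : Fin N)
    (hgood : ∀ i, lev i = 1 → IsJunta t' (restr ω j (F i))) :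
    Fam (max t t') h (fun i => OVAC.restr ω j (F i)) (fun i => lev i - 1) := by
  refine ⟨?_, ?_, ?_⟩
  · intro i hi
    by_cases h0 : lev i = 0
    · exact ((hF.base i h0).restr ω j).mono (le_max_left _ _)
    · exact (hgood i (by omega)).mono (le_max_right _ _)
  · intro i hi
    obtain ⟨C, hC1, hC2⟩ := hF.or i (by omega)
    refine ⟨OVAC.restr ω j '' C, ?_, ?_⟩
    · rintro _ ⟨c, hc, rfl⟩
      rcases hC1 c hc with h | ⟨i', h1, h2⟩
      · exact Or.inl ((h.restr ω j).mono (le_max_left _ _))
      · by_cases h0 : lev i' = 0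
        · refine Or.inl ?_
          rcases h2 with h2 | h2
          · rw [h2]
            exact ((hF.base i' h0).restr ω j).mono (le_max_left _ _)
          · rw [h2]
            exact ((hF.base i' h0).neg.restr ω j).mono (le_max_left _ _)
        · refine Or.inr ⟨i', by omega, ?_⟩
          rcases h2 with h2 | h2
          · exact Or.inl (by rw [h2])
          · exact Or.inr (by rw [h2]; rfl)
    · intro σ
      constructor
      · intro h
        obtain ⟨c, hc, h1⟩ := (hC2 _).1 h
        exact ⟨_, ⟨c, hc, rfl⟩, h1⟩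
      · rintro ⟨_, ⟨c, hc, rfl⟩, h1⟩
        exact (hC2 _).2 ⟨c, hc, h1⟩
  · intro i
    have := hF.le i
    show lev i - 1 ≤ h
    omega

theorem Fam.cert {ι : Type} {t h : ℕ} {F : ι → BF V} {lev : ι → ℕ} (hF : Fam t h F lev) (i : ι)
    (hi : lev i = 1) : Cert t (F i) := by
  obtain ⟨C, hC1, hC2⟩ := hF.or i (by omega)
  refine cert_of_or C ?_ hC2
  intro c hc
  rcases hC1 c hc with h | ⟨i', h1, h2⟩
  · exact h
  · have h0 : lev i' = 0 := by omega
    rcases h2 with h2 | h2
    · rw [h2]
      exact hF.base i' h0
    · rw [h2]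
      exact (hF.base i' h0).neg

end

theorem sens_tail (h : ℕ) : ∀ t K : ℕ, ∃ t' N₀ : ℕ, ∀ N ≥ N₀, ∀ (V : Type) [Fintype V]
    [DecidableEq V] (ι : Type) [Fintype ι] (F : ι → BF V) (lev : ι → ℕ), Fam t h F lev →
    ∀ G : ℕ, (Finset.univ.filter fun i => lev i ≠ 0).card ≤ G → ∀ i,
    pr (fun σ : V → Bool => t' * N ^ h < sens (F i) σ) ≤ (G : ℝ) / (N : ℝ) ^ K := by
  induction h with
  | zero =>
    intro t K
    refine ⟨t, 0, fun N _ V _ _ ι _ F lev hF G _ i => ?_⟩
    rw [pr_eq_zero]
    · positivity
    · intro σ hσ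
      have := sens_le_of_isJunta (hF.base i (Nat.le_zero.1 (hF.le i))) σ
      rw [pow_zero, mul_one] at hσ
      omega
  | succ h ih =>
    intro t K
    obtain ⟨s, N₁, hs⟩ := fss t (K + 2)
    obtain ⟨t', N₂, ht'⟩ := ih (max t s) (K + 2)
    refine ⟨t', max 2 (max N₁ N₂), ?_⟩
    intro N hN V _ _ ι _ F lev hF G hG i
    classical
    have hN2 : 2 ≤ N := (le_max_left _ _).trans hN
    have hNN1 : N₁ ≤ N := (le_max_left _ _).trans ((le_max_right _ _).trans hN)
    have hNN2 : N₂ ≤ N := (le_max_right _ _).trans ((le_max_right _ _).trans hN)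
    have hN' : (2 : ℝ) ≤ N := by exact_mod_cast hN2
    have hN0 : (0 : ℝ) < N := by linarith
    have hNe : Nonempty (Fin N) := ⟨⟨0, by omega⟩⟩
    let B : Fin N → (V → Fin N) → (V → Bool) → Prop := fun j c σ =>
      t' * N ^ h < (Finset.univ.filter fun k => c k = j ∧ F i (flip σ k) ≠ F i σ).card
    -- pigeonhole over the colours
    have h1 : ∀ (c : V → Fin N) (σ : V → Bool), t' * N ^ (h + 1) < sens (F i) σ →
        ∃ j ∈ (Finset.univ : Finset (Fin N)), B j c σ := by
      intro c σ hσ
      by_contra hcon
      push Not at hcon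
      have h2 : sens (F i) σ = ∑ j : Fin N, (Finset.univ.filter fun k => c k = j ∧
          F i (flip σ k) ≠ F i σ).card := by
        unfold sens
        rw [Finset.card_eq_sum_card_fiberwise (f := c) (t := Finset.univ)
          (fun _ _ => Finset.mem_univ _)]
        apply Finset.sum_congr rfl
        intro j _
        congr 1
        ext k
        simp [and_comm]
      have h3 : sens (F i) σ ≤ ∑ _j : Fin N, t' * N ^ h := by
        rw [h2]
        exact Finset.sum_le_sum fun j hj => not_lt.1 (hcon j hj)
      rw [Finset.sum_const, Finset.card_univ, Fintype.card_fin, smul_eq_mul] at h3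
      have h4 : N * (t' * N ^ h) = t' * N ^ (h + 1) := by ring
      omega
    -- one colour
    have hone : ∀ j : Fin N, (av fun c : V → Fin N => pr fun σ => B j c σ) ≤
        2 * G / (N : ℝ) ^ (K + 2) := by
      intro j
      have h2 : (av fun c : V → Fin N => pr fun σ => B j c σ) =
          av fun ω : V → Fin N × Bool => pr fun σ : V → Bool =>
            B j (fun k => (ω k).1) (fun k => if (ω k).1 = j then σ k else (ω k).2) := by
        have h3 := av_equiv (Equiv.arrowProdEquivProdArrow V (fun _ => Fin N) (fun _ => Bool))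
          (fun z : (V → Fin N) × (V → Bool) => pr fun σ : V → Bool =>
            B j z.1 (fun k => if z.1 k = j then σ k else z.2 k))
        refine Eq.trans ?_ h3.symm
        rw [av_prod fun (c : V → Fin N) (σ0 : V → Bool) => pr fun σ : V → Bool =>
            B j c (fun k => if c k = j then σ k else σ0 k)]
        apply av_congr
        intro c
        rw [← pr_mix (Finset.univ.filter fun k => c k ≠ j)]
        apply av_congr
        intro σ0
        apply pr_congr
        intro σ
        have : mix (Finset.univ.filter fun k => c k ≠ j) σ0 σ =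
            fun k => if c k = j then σ k else σ0 k := by
          funext k
          unfold mix
          by_cases hk : c k = j <;> simp [hk]
        rw [this]
      rw [h2]
      have hbad : pr (fun ω : V → Fin N × Bool => ∃ i' ∈ Finset.univ.filter (fun i => lev i = 1),
          ¬ IsJunta s (restr ω j (F i'))) ≤ G / (N : ℝ) ^ (K + 2) := by
        refine (pr_exists_le _ _).trans ?_
        have h3 : ∀ i' ∈ Finset.univ.filter (fun i => lev i = 1),
            pr (fun ω : V → Fin N × Bool => ¬ IsJunta s (restr ω j (F i'))) ≤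
              1 / (N : ℝ) ^ (K + 2) := by
          intro i' hi'
          exact hs N hNN1 V j _ (hF.cert i' (Finset.mem_filter.1 hi').2)
        refine (Finset.sum_le_sum h3).trans ?_
        rw [Finset.sum_const, nsmul_eq_mul, mul_one_div]
        apply div_le_div_of_nonneg_right _ (by positivity)
        have h4 : (Finset.univ.filter fun i => lev i = 1).card ≤ G := by
          refine (Finset.card_le_card ?_).trans hG
          intro k hk
          rw [Finset.mem_filter] at hk ⊢
          exact ⟨hk.1, by rw [hk.2]; norm_num⟩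
        exact_mod_cast h4
      have hω : ∀ ω : V → Fin N × Bool, (pr fun σ : V → Bool =>
            B j (fun k => (ω k).1) (fun k => if (ω k).1 = j then σ k else (ω k).2)) ≤
          (if ∃ i' ∈ Finset.univ.filter (fun i => lev i = 1),
            ¬ IsJunta s (restr ω j (F i')) then (1 : ℝ) else 0) + G / (N : ℝ) ^ (K + 2) := by
        intro ω
        by_cases hb : ∃ i' ∈ Finset.univ.filter (fun i => lev i = 1),
            ¬ IsJunta s (restr ω j (F i'))
        · rw [if_pos hb]
          have h5 : (0 : ℝ) ≤ G / (N : ℝ) ^ (K + 2) := by positivity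
          have h6 := pr_le_one (fun σ : V → Bool =>
            B j (fun k => (ω k).1) (fun k => if (ω k).1 = j then σ k else (ω k).2))
          linarith
        · rw [if_neg hb, zero_add]
          push Not at hb
          have hfam := hF.restr ω j (t' := s)
            (fun i' hi' => hb i' (Finset.mem_filter.2 ⟨Finset.mem_univ _, hi'⟩))
          have h7 := ht' N hNN2 V ι _ _ hfam G ((Finset.card_le_card (fun k hk => by
            rw [Finset.mem_filter] at hk ⊢
            refine ⟨hk.1, fun h0 => hk.2 ?_⟩
            show lev k - 1 = 0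
            omega)).trans hG) i
          refine le_trans (pr_mono fun σ hσ => ?_) h7
          exact lt_of_lt_of_le hσ (alive_le_sens ω j (F i) σ)
      refine (av_mono hω).trans ?_
      rw [av_add]
      have h8 : (av fun _ : V → Fin N × Bool => (G : ℝ) / (N : ℝ) ^ (K + 2)) =
          G / (N : ℝ) ^ (K + 2) := av_const _
      rw [h8]
      calc _ ≤ G / (N : ℝ) ^ (K + 2) + G / (N : ℝ) ^ (K + 2) := by
            gcongr
            refine le_of_eq_of_le ?_ hbad
            unfold pr
            exact av_congr fun ω => by congr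
        _ = 2 * G / (N : ℝ) ^ (K + 2) := by ring
    calc pr (fun σ : V → Bool => t' * N ^ (h + 1) < sens (F i) σ)
        = av fun _ : V → Fin N => pr (fun σ : V → Bool => t' * N ^ (h + 1) < sens (F i) σ) :=
          (av_const _).symm
      _ ≤ av fun c : V → Fin N => ∑ j : Fin N, pr fun σ => B j c σ :=
          av_mono fun c => (pr_mono (h1 c)).trans (pr_exists_le _ _)
      _ = ∑ j : Fin N, av fun c : V → Fin N => pr fun σ => B j c σ := av_sum _ _
      _ ≤ ∑ _j : Fin N, 2 * G / (N : ℝ) ^ (K + 2) := Finset.sum_le_sum fun j _ => hone j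
      _ = N * (2 * G / (N : ℝ) ^ (K + 2)) := by
          rw [Finset.sum_const, Finset.card_univ, Fintype.card_fin, nsmul_eq_mul]
      _ ≤ G / (N : ℝ) ^ K := by
          have hG0 : (0 : ℝ) ≤ G := Nat.cast_nonneg G
          have hK : (0 : ℝ) < (N : ℝ) ^ K := by positivity
          rw [pow_add, mul_div_assoc', div_le_div_iff₀ (by positivity) hK]
          have h9 : (N : ℝ) * (2 * G) * N ^ K = (G * N ^ K * N) * 2 := by ring
          have h10 : (G : ℝ) * (N ^ K * N ^ 2) = (G * N ^ K * N) * N := by ring
          rw [h9, h10]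
          exact mul_le_mul_of_nonneg_left hN' (by positivity)

end Pool.Agent.H58.OVAC
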