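import Pool.Agent.H58.OVAC.Menu

/-! Two by two tables and the first gate with an interaction. -/

set_option autoImplicit false
set_option maxHeartbeats 4000000

namespace Pool.Agent.H58.OVAC

section

variable {n : ℕ} {X : Type}

/-- Change the `i`-th entry on the left side. -/
def yA (y : Bool × Fin n → X) (i : Fin n) (a : X) : Bool × Fin n → X :=
  Function.update y (false, i) a

/-- Change the `j`-th entry on the right side. -/
def yB (y : Bool × Fin n → X) (j : Fin n) (b : X) : Bool × Fin n → X :=
  Function.update y (true, j) b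

/-- Change both. -/
def yAB (y : Bool × Fin n → X) (i j : Fin n) (a b : X) : Bool × Fin n → X :=
  Function.update (Function.update y (false, i) a) (true, j) b

/-- On the four inputs `u` does not react to the change of `j`, or does not react to the change
of `i`. -/
def Add (u : (Bool × Fin n → X) → Bool) (y : Bool × Fin n → X) (a b : X) (i j : Fin n) : Prop :=
  (u y = u (yB y j b) ∧ u (yA y i a) = u (yAB y i j a b)) ∨
    (u y = u (yA y i a) ∧ u (yB y j b) = u (yAB y i j a b))

/-- `u` reacts to the change of `i`. -/
def sA (u : (Bool × Fin n → X) → Bool) (y : Bool × Fin n → X) (a : X) (i : Fin n) : Prop :=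
  u (yA y i a) ≠ u y

/-- `u` reacts to the change of `j`. -/
def sB (u : (Bool × Fin n → X) → Bool) (y : Bool × Fin n → X) (b : X) (j : Fin n) : Prop :=
  u (yB y j b) ≠ u y

theorem Add.neg {u : (Bool × Fin n → X) → Bool} {y : Bool × Fin n → X} {a b : X} {i j : Fin n}
    (h : Add u y a b i j) : Add (fun x => !u x) y a b i j := by
  rcases h with ⟨h1, h2⟩ | ⟨h1, h2⟩
  · exact Or.inl ⟨by simp only [h1], by simp only [h2]⟩
  · exact Or.inr ⟨by simp only [h1], by simp only [h2]⟩

theorem add_of_depOne {u : (Bool × Fin n → X) → Bool} (hu : DepOne u) (y : Bool × Fin n → X)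
    (a b : X) (i j : Fin n) : Add u y a b i j := by
  obtain ⟨P, h1, h2⟩ := hu
  by_cases hj : (true, j) ∈ P
  · have hi : (false, i) ∉ P := by
      intro hi
      have := Finset.card_le_one.1 h1 _ hi _ hj
      simp at this
    refine Or.inr ⟨h2 _ _ fun p hp => ?_, h2 _ _ fun p hp => ?_⟩
    · have : p ≠ (false, i) := by rintro rfl; exact hi hp
      simp [yA, this]
    · have h3 : p ≠ (false, i) := by rintro rfl; exact hi hp
      unfold yB yAB
      by_cases h4 : p = (true, j)
      · subst h4
        simp
      · simp [h3, h4]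
  · refine Or.inl ⟨h2 _ _ fun p hp => ?_, h2 _ _ fun p hp => ?_⟩
    · have : p ≠ (true, j) := by rintro rfl; exact hj hp
      simp [yB, this]
    · have : p ≠ (true, j) := by rintro rfl; exact hj hp
      simp [yA, yAB, this]

/-- The case analysis at a gate. -/
theorem table {m : ℕ} (w : Fin m → (Bool × Fin n → X) → Bool) (g w1 : (Bool × Fin n → X) → Bool)
    (hg : ∀ x, g x = true ↔ ∃ k, w k x = true) (y : Bool × Fin n → X) (a b : X) (i j : Fin n)
    (hw : ∀ k, Add (w k) y a b i j) (hna : ¬ Add g y a b i j)
    (h1 : (∃ k, w k y = true) → ∃ k, w1 = w k ∧ w k y = true) :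
    ∃ k, (sA (w k) y a i ∧ sB g y b j) ∨ (sA g y a i ∧ sB (w k) y b j) ∨
      (sA w1 y a i ∧ sB (w k) y b j) ∨ (sA (w k) y a i ∧ sB w1 y b j) := by
  have hgf : ∀ x, g x = false → ∀ k, w k x = false := by
    intro x hx k
    by_contra hk
    rw [Bool.not_eq_false] at hk
    have := (hg x).2 ⟨k, hk⟩
    rw [hx] at this
    exact absurd this (by decide)
  unfold Add at hna hw
  unfold sA sB
  generalize yAB y i j a b = z at *
  generalize yA y i a = y1 at *
  generalize yB y j b = y2 at *
  cases g0 : g y with
  | false =>
    have hk0 := hgf y g0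
    cases g1 : g y1 with
    | false =>
      have hk1 := hgf y1 g1
      cases g2 : g y2 with
      | false =>
        have hk2 := hgf y2 g2
        exfalso
        apply hna
        refine Or.inl ⟨by rw [g0, g2], ?_⟩
        rw [g1]
        by_contra hz
        have hz' : g z = true := by
          cases h : g z
          · exact absurd h.symm hz
          · rfl
        obtain ⟨k, hk⟩ := (hg z).1 hz'
        rcases hw k with ⟨h2, h3⟩ | ⟨h2, h3⟩
        · rw [hk1 k, hk] at h3
          exact absurd h3 (by decide)
        · rw [hk2 k, hk] at h3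
          exact absurd h3 (by decide)
      | true =>
        exfalso
        apply hna
        refine Or.inr ⟨by rw [g0, g1], ?_⟩
        rw [g2]
        obtain ⟨k, hk⟩ := (hg y2).1 g2
        symm
        rw [hg]
        refine ⟨k, ?_⟩
        rcases hw k with ⟨h2, h3⟩ | ⟨h2, h3⟩
        · rw [hk0 k, hk] at h2
          exact absurd h2 (by decide)
        · rw [← h3, hk]
    | true =>
      cases g2 : g y2 with
      | false =>
        exfalso
        apply hna
        refine Or.inl ⟨by rw [g0, g2], ?_⟩
        rw [g1]
        obtain ⟨k, hk⟩ := (hg y1).1 g1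
        symm
        rw [hg]
        refine ⟨k, ?_⟩
        rcases hw k with ⟨h2, h3⟩ | ⟨h2, h3⟩
        · rw [← h3, hk]
        · rw [hk0 k, hk] at h2
          exact absurd h2 (by decide)
      | true =>
        obtain ⟨k, hk⟩ := (hg y1).1 g1
        refine ⟨k, Or.inl ⟨?_, by decide⟩⟩
        rw [hk, hk0 k]
        decide
  | true =>
    obtain ⟨k1, hk1, hk1'⟩ := h1 ((hg y).1 g0)
    cases g1 : g y1 with
    | false =>
      cases g2 : g y2 with
      | false =>
        refine ⟨k1, Or.inl ⟨?_, by decide⟩⟩
        rw [hk1', hgf y1 g1 k1]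
        decide
      | true =>
        -- `g z = true`
        have hz : g z = true := by
          by_contra hz
          rw [Bool.not_eq_true] at hz
          apply hna
          refine Or.inl ⟨by rw [g0, g2], by rw [g1, hz]⟩
        obtain ⟨k, hk⟩ := (hg z).1 hz
        refine ⟨k, Or.inr (Or.inl ⟨by decide, ?_⟩)⟩
        rcases hw k with ⟨h2, h3⟩ | ⟨h2, h3⟩
        · rw [hgf y1 g1 k, hk] at h3
          exact absurd h3 (by decide)
        · rw [h2, h3, hk, hgf y1 g1 k]
          decide
    | true =>
      cases g2 : g y2 with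
      | false =>
        have hz : g z = true := by
          by_contra hz
          rw [Bool.not_eq_true] at hz
          apply hna
          refine Or.inr ⟨by rw [g0, g1], by rw [g2, hz]⟩
        obtain ⟨k, hk⟩ := (hg z).1 hz
        refine ⟨k, Or.inl ⟨?_, by decide⟩⟩
        rcases hw k with ⟨h2, h3⟩ | ⟨h2, h3⟩
        · rw [h2, h3, hk, hgf y2 g2 k]
          decide
        · rw [hgf y2 g2 k, hk] at h3
          exact absurd h3 (by decide)
      | true =>
        have hz : g z = false := by
          by_contra hz
          rw [Bool.not_eq_false] at hz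
          apply hna
          refine Or.inl ⟨by rw [g0, g2], by rw [g1, hz]⟩
        have hkz := hgf z hz
        rcases hw k1 with ⟨h2, h3⟩ | ⟨h2, h3⟩
        · -- `k1` depends on the change of `i` only
          obtain ⟨k, hk⟩ := (hg y1).1 g1
          refine ⟨k, Or.inr (Or.inr (Or.inl ⟨?_, ?_⟩))⟩
          · rw [hk1, h3, hkz k1, hk1']
            decide
          · rcases hw k with ⟨h4, h5⟩ | ⟨h4, h5⟩
            · rw [hk, hkz k] at h5
              exact absurd h5 (by decide)
            · rw [h5, hkz k, h4, hk]
              decide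
        · obtain ⟨k, hk⟩ := (hg y2).1 g2
          refine ⟨k, Or.inr (Or.inr (Or.inr ⟨?_, ?_⟩))⟩
          · rcases hw k with ⟨h4, h5⟩ | ⟨h4, h5⟩
            · rw [h5, hkz k, h4, hk]
              decide
            · rw [hk, hkz k] at h5
              exact absurd h5 (by decide)
          · rw [hk1, h3, hkz k1, hk1']
            decide

open Classical in
/-- The number of left positions whose change matters. -/
noncomputable def NA (u : (Bool × Fin n → X) → Bool) (y : Bool × Fin n → X) (a : X) : ℕ :=
  (Finset.univ.filter fun i => sA u y a i).card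

open Classical in
/-- The number of right positions whose change matters. -/
noncomputable def NB (u : (Bool × Fin n → X) → Bool) (y : Bool × Fin n → X) (b : X) : ℕ :=
  (Finset.univ.filter fun j => sB u y b j).card

open Classical in
/-- The number of pairs of positions at which a gate has an interaction and its wires have none. -/
theorem new_card {m : ℕ} (w : Fin m → (Bool × Fin n → X) → Bool)
    (g w1 : (Bool × Fin n → X) → Bool)
    (hg : ∀ x, g x = true ↔ ∃ k, w k x = true) (y : Bool × Fin n → X) (a b : X)
    (h1 : (∃ k, w k y = true) → ∃ k, w1 = w k ∧ w k y = true) :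
    (Finset.univ.filter fun p : Fin n × Fin n =>
      (∀ k, Add (w k) y a b p.1 p.2) ∧ ¬ Add g y a b p.1 p.2).card ≤
    ∑ k, (NA (w k) y a * NB g y b + NA g y a * NB (w k) y b +
      NA w1 y a * NB (w k) y b + NA (w k) y a * NB w1 y b) := by
  let SA : ((Bool × Fin n → X) → Bool) → Finset (Fin n) :=
    fun u => Finset.univ.filter fun i => sA u y a i
  let SB : ((Bool × Fin n → X) → Bool) → Finset (Fin n) :=
    fun u => Finset.univ.filter fun j => sB u y b j
  have hsub : (Finset.univ.filter fun p : Fin n × Fin n =>
      (∀ k, Add (w k) y a b p.1 p.2) ∧ ¬ Add g y a b p.1 p.2) ⊆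
      Finset.univ.biUnion fun k => (((SA (w k) ×ˢ SB g) ∪ (SA g ×ˢ SB (w k))) ∪
        (SA w1 ×ˢ SB (w k))) ∪ (SA (w k) ×ˢ SB w1) := by
    intro p hp
    obtain ⟨hp1, hp2⟩ := (Finset.mem_filter.1 hp).2
    obtain ⟨k, hk⟩ := table w g w1 hg y a b p.1 p.2 hp1 hp2 h1
    refine Finset.mem_biUnion.2 ⟨k, Finset.mem_univ _, ?_⟩
    simp only [Finset.mem_union, Finset.mem_product, SA, SB, Finset.mem_filter,
      Finset.mem_univ, true_and]
    tauto
  refine (Finset.card_le_card hsub).trans (Finset.card_biUnion_le.trans ?_)
  apply Finset.sum_le_sum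
  intro k _
  refine (Finset.card_union_le _ _).trans ?_
  refine Nat.add_le_add ?_ (le_of_eq (Finset.card_product _ _))
  refine (Finset.card_union_le _ _).trans ?_
  refine Nat.add_le_add ?_ (le_of_eq (Finset.card_product _ _))
  refine (Finset.card_union_le _ _).trans ?_
  exact Nat.add_le_add (le_of_eq (Finset.card_product _ _)) (le_of_eq (Finset.card_product _ _))

end

/-- Circuits as families of functions: the gate `g` is the disjunction of its wires, a wire
carries a function of one position, or the value of a gate of smaller level, possibly negated. -/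
structure Net (V X : Type) where
  G : ℕ
  lev : Fin G → ℕ
  deg : Fin G → ℕ
  U : Fin G → (V → X) → Bool
  w : (g : Fin G) → Fin (deg g) → (V → X) → Bool
  hU : ∀ g x, U g x = true ↔ ∃ k, w g k x = true
  hw : ∀ g k, DepOne (w g k) ∨ ∃ g', lev g' < lev g ∧ (w g k = U g' ∨ w g k = fun x => !U g' x)

/-- The number of wires. -/
def Net.wires {V X : Type} (N : Net V X) : ℕ := ∑ g, N.deg g

/-- The wires of `g` which are true at `y`: one of them, or the constant `false`. -/
noncomputable def Net.first {V X : Type} (N : Net V X) (g : Fin N.G) (y : V → X) :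
    (V → X) → Bool :=
  open Classical in
  if h : ∃ k, N.w g k y = true then N.w g (Classical.choose h) else fun _ => false

theorem Net.first_spec {V X : Type} (N : Net V X) (g : Fin N.G) (y : V → X)
    (h : ∃ k, N.w g k y = true) : ∃ k, N.first g y = N.w g k ∧ N.w g k y = true := by
  refine ⟨Classical.choose h, ?_, Classical.choose_spec h⟩
  unfold Net.first
  rw [dif_pos h]

theorem Net.rowFam {V X : Type} (N : Net V X) (h : ℕ) (hh : ∀ g, N.lev g < h) :
    RowFam h N.U (fun g => if N.deg g = 0 then 0 else N.lev g + 1) := by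
  refine ⟨?_, ?_, ?_⟩
  · intro g hg
    have hd : N.deg g = 0 := by
      by_contra hd
      simp [hd] at hg
    refine ⟨∅, by simp, fun x y _ => ?_⟩
    have h1 : ∀ x, N.U g x = false := by
      intro x
      by_contra hx
      rw [Bool.not_eq_false] at hx
      obtain ⟨k, _⟩ := (N.hU g x).1 hx
      exact absurd k.2 (by omega)
    rw [h1, h1]
  · intro g hg
    have hd : N.deg g ≠ 0 := by
      intro hd
      simp [hd] at hg
    refine ⟨Set.range (N.w g), ?_, ?_⟩
    · rintro _ ⟨k, rfl⟩
      rcases N.hw g k with h1 | ⟨g', h1, h2⟩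
      · exact Or.inl h1
      · refine Or.inr ⟨g', ?_, h2⟩
        simp only [hd, if_false]
        split_ifs <;> omega
    · intro x
      rw [N.hU]
      simp
  · intro g
    have := hh g
    show (if N.deg g = 0 then 0 else N.lev g + 1) ≤ h
    split_ifs <;> omega

open Classical in
/-- Every interaction arises at some gate. -/
theorem Net.int_card {n : ℕ} {X : Type} (N : Net (Bool × Fin n) X) (out : Fin N.G)
    (y : Bool × Fin n → X) (a b : X) :
    (Finset.univ.filter fun p : Fin n × Fin n => ¬ Add (N.U out) y a b p.1 p.2).card ≤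
    ∑ g, ∑ k, (NA (N.w g k) y a * NB (N.U g) y b + NA (N.U g) y a * NB (N.w g k) y b +
      NA (N.first g y) y a * NB (N.w g k) y b + NA (N.w g k) y a * NB (N.first g y) y b) := by
  have key : ∀ (l : ℕ) (g : Fin N.G), N.lev g = l → ∀ i j : Fin n, ¬ Add (N.U g) y a b i j →
      ∃ g', (∀ k, Add (N.w g' k) y a b i j) ∧ ¬ Add (N.U g') y a b i j := by
    intro l
    induction l using Nat.strong_induction_on with
    | _ l ih =>
      intro g hg i j hna
      by_cases hall : ∀ k, Add (N.w g k) y a b i j
      · exact ⟨g, hall, hna⟩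
      · push Not at hall
        obtain ⟨k, hk⟩ := hall
        rcases N.hw g k with h1 | ⟨g', h1, h2⟩
        · exact absurd (add_of_depOne h1 y a b i j) hk
        · refine ih (N.lev g') (by omega) g' rfl i j fun hadd => hk ?_
          rcases h2 with h2 | h2
          · rw [h2]
            exact hadd
          · rw [h2]
            exact hadd.neg
  have hsub : (Finset.univ.filter fun p : Fin n × Fin n => ¬ Add (N.U out) y a b p.1 p.2) ⊆
      Finset.univ.biUnion fun g => Finset.univ.filter fun p : Fin n × Fin n =>
        (∀ k, Add (N.w g k) y a b p.1 p.2) ∧ ¬ Add (N.U g) y a b p.1 p.2 := by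
    intro p hp
    obtain ⟨g', h1, h2⟩ := key _ out rfl p.1 p.2 (Finset.mem_filter.1 hp).2
    exact Finset.mem_biUnion.2 ⟨g', Finset.mem_univ _,
      Finset.mem_filter.2 ⟨Finset.mem_univ _, h1, h2⟩⟩
  refine (Finset.card_le_card hsub).trans (Finset.card_biUnion_le.trans ?_)
  apply Finset.sum_le_sum
  intro g _
  exact new_card (N.w g) (N.U g) (N.first g y) (N.hU g) y a b (N.first_spec g y)

end Pool.Agent.H58.OVAC
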